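import Mathlib

open Finset

namespace Pool.Agent.H13

section QBinom
variable {A : Type*} [CommRing A]

/-- `∏_{i<N} (1 - q^(i+1))` -/
def poch (q : A) (N : ℕ) : A := ∏ i ∈ range N, (1 - q ^ (i + 1))

lemma poch_zero (q : A) : poch q 0 = 1 := by simp [poch]

lemma poch_succ (q : A) (N : ℕ) : poch q (N + 1) = poch q N * (1 - q ^ (N + 1)) := by
  simp [poch, prod_range_succ]

/-- Gaussian binomial coefficients -/
def gb (q : A) : ℕ → ℕ → A
  | 0, 0 => 1
  | 0, _ + 1 => 0
  | _ + 1, 0 => 1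
  | N + 1, j + 1 => gb q N j + q ^ (j + 1) * gb q N (j + 1)

@[simp] lemma gb_zero_right (q : A) (N : ℕ) : gb q N 0 = 1 := by
  cases N <;> rfl

lemma gb_succ_succ (q : A) (N j : ℕ) :
    gb q (N + 1) (j + 1) = gb q N j + q ^ (j + 1) * gb q N (j + 1) := rfl

lemma gb_eq_zero (q : A) : ∀ (N j : ℕ), N < j → gb q N j = 0
  | 0, 0, h => by omega
  | 0, j + 1, _ => rfl
  | N + 1, 0, h => by omega
  | N + 1, j + 1, h => by
    rw [gb_succ_succ, gb_eq_zero q N j (by omega), gb_eq_zero q N (j + 1) (by omega)]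
    simp

lemma gb_self (q : A) : ∀ N : ℕ, gb q N N = 1
  | 0 => rfl
  | N + 1 => by
    rw [gb_succ_succ, gb_self q N, gb_eq_zero q N (N + 1) (by omega)]
    simp

lemma gb_mul_poch (q : A) : ∀ (s j l : ℕ), j + l = s →
    gb q (j + l) j * poch q j * poch q l = poch q (j + l)
  | 0, j, l, h => by
    have hj : j = 0 := by omega
    have hl : l = 0 := by omega
    subst hj; subst hl
    simp [poch_zero]
  | s + 1, j, l, h => by
    rcases j with _ | j
    · simp [poch_zero]
    rcases l with _ | l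
    · rw [add_zero, gb_self, poch_zero]; ring
    have e1 : j + 1 + (l + 1) = (j + (l + 1)) + 1 := by ring
    have e2 : j + (l + 1) = (j + 1) + l := by ring
    rw [e1, gb_succ_succ, poch_succ q (j + (l + 1))]
    have h1 := gb_mul_poch q s j (l + 1) (by omega)
    have h2 := gb_mul_poch q s (j + 1) l (by omega)
    rw [← e2] at h2
    have h3 : q ^ (j + (l + 1) + 1) = q ^ (j + 1) * q ^ (l + 1) := by
      rw [← pow_add]; congr 1; ring
    rw [h3]
    calc (gb q (j + (l + 1)) j + q ^ (j + 1) * gb q (j + (l + 1)) (j + 1)) * poch q (j + 1) * poch q (l + 1)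
        = (gb q (j + (l + 1)) j * poch q j * poch q (l + 1)) * (1 - q ^ (j + 1))
          + q ^ (j + 1) * (gb q (j + (l + 1)) (j + 1) * poch q (j + 1) * poch q l) * (1 - q ^ (l + 1)) := by
          rw [poch_succ q j, poch_succ q l]; ring
      _ = poch q (j + (l + 1)) * (1 - q ^ (j + 1) * q ^ (l + 1)) := by
          rw [h1, h2]; ring

lemma gb_rel (q : A) : ∀ (N j l : ℕ), j + l = N →
    (1 - q ^ l) * gb q N j = (1 - q ^ (j + 1)) * gb q N (j + 1)
  | 0, j, l, h => by
    have hj : j = 0 := by omega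
    have hl : l = 0 := by omega
    subst hj; subst hl
    simp [gb]
  | N + 1, j, l, h => by
    rcases l with _ | l
    · rw [gb_eq_zero q (N + 1) (j + 1) (by omega)]; simp
    rcases j with _ | j
    · have h1 := gb_rel q N 0 l (by omega)
      rw [gb_zero_right, gb_succ_succ, gb_zero_right]
      rw [gb_zero_right] at h1
      simp only [zero_add, pow_one, mul_one] at h1 ⊢
      rw [pow_succ]
      linear_combination q * h1
    · have h1 := gb_rel q N (j + 1) l (by omega)
      have h2 := gb_rel q N j (l + 1) (by omega)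
      rw [gb_succ_succ q N (j + 1), gb_succ_succ q N j]
      have h4 : q ^ (l + 1) = q ^ l * q := pow_succ q l
      have h5 : q ^ (j + 1 + 1) = q ^ (j + 1) * q := pow_succ q (j + 1)
      rw [h4] at h2 ⊢
      rw [h5] at h1 ⊢
      linear_combination h2 + q * q ^ (j + 1) * h1

lemma gb_succ_succ' (q : A) (N j l : ℕ) (h : j + l = N) :
    gb q (N + 1) (j + 1) = q ^ l * gb q N j + gb q N (j + 1) := by
  rw [gb_succ_succ]
  have := gb_rel q N j l h
  linear_combination this

end QBinom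

/-- triangular numbers `k(k-1)/2` for integers -/
def tri (k : ℤ) : ℕ := (k * (k - 1) / 2).toNat

lemma two_mul_tri (k : ℤ) : 2 * (tri k : ℤ) = k * (k - 1) := by
  unfold tri
  have h1 : 0 ≤ k * (k - 1) := by
    rcases le_or_gt k 0 with h | h
    · nlinarith
    · nlinarith
  have h2 : Even (k * (k - 1)) := Int.even_mul_pred_self k
  obtain ⟨c, hc⟩ := h2
  rw [hc, show (c + c) / 2 = c by omega, Int.toNat_of_nonneg (by omega)]
  ring

lemma tri_add_one (k : ℤ) : (tri (k + 1) : ℤ) = tri k + k := by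
  have h1 := two_mul_tri (k + 1)
  have h2 := two_mul_tri k
  have h3 : 2 * (tri (k + 1) : ℤ) = 2 * (tri k + k) := by
    rw [h1, mul_add, h2]; ring
  omega

section JTP
variable {A : Type*} [CommRing A]

/-- finite Jacobi triple product -/
theorem finite_jtp (q z : A) : ∀ (n m : ℕ),
    (∏ i ∈ range n, (1 + z * q ^ i)) * (∏ i ∈ range m, (z + q ^ (i + 1))) =
      ∑ j ∈ range (n + m + 1), z ^ j * q ^ (tri ((j : ℤ) - m)) * gb q (n + m) j
  | 0, 0 => by simp [tri]
  | 0, m + 1 => by
    have ih := finite_jtp q z 0 m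
    rw [prod_range_succ, ← mul_assoc, ih]
    rw [sum_range_succ' _ (0 + (m + 1))]
    have hN : 0 + (m + 1) = (0 + m) + 1 := by ring
    rw [hN]
    simp only [gb_succ_succ, mul_add, sum_add_distrib]
    have e1 : ∑ x ∈ range (0 + m + 1), z ^ (x + 1) * q ^ tri (((x + 1 : ℕ) : ℤ) - ((m + 1 : ℕ) : ℤ)) * gb q (0 + m) x
        = (∑ j ∈ range (0 + m + 1), z ^ j * q ^ (tri ((j : ℤ) - m)) * gb q (0 + m) j) * z := by
      rw [sum_mul]
      apply sum_congr rfl
      intro x _
      have : (((x + 1 : ℕ) : ℤ) - ((m + 1 : ℕ) : ℤ)) = (x : ℤ) - m := by push_cast; ring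
      rw [this, pow_succ]
      ring
    have e2 : ∑ x ∈ range (0 + m + 1), z ^ (x + 1) * q ^ tri (((x + 1 : ℕ) : ℤ) - ((m + 1 : ℕ) : ℤ)) * (q ^ (x + 1) * gb q (0 + m) (x + 1))
        + z ^ 0 * q ^ tri (((0 : ℕ) : ℤ) - ((m + 1 : ℕ) : ℤ)) * gb q (0 + m + 1) 0
        = (∑ j ∈ range (0 + m + 1), z ^ j * q ^ (tri ((j : ℤ) - m)) * gb q (0 + m) j) * q ^ (m + 1) := by
      rw [sum_mul, sum_range_succ, gb_eq_zero q (0 + m) (0 + m + 1) (by omega)]
      rw [sum_range_succ' _ (0 + m)]
      simp only [mul_zero, add_zero]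
      congr 1
      · apply sum_congr rfl
        intro x _
        have h1 : q ^ tri (((x + 1 : ℕ) : ℤ) - ((m + 1 : ℕ) : ℤ)) * q ^ (x + 1) =
            q ^ tri (((x + 1 : ℕ) : ℤ) - m) * q ^ (m + 1) := by
          rw [← pow_add, ← pow_add]
          congr 1
          have := tri_add_one (((x + 1 : ℕ) : ℤ) - ((m + 1 : ℕ) : ℤ))
          have h2 : (((x + 1 : ℕ) : ℤ) - ((m + 1 : ℕ) : ℤ)) + 1 = ((x + 1 : ℕ) : ℤ) - m := by
            push_cast; ring
          rw [h2] at this
          push_cast at this ⊢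
          omega
        linear_combination (z ^ (x + 1) * gb q (0 + m) (x + 1)) * h1
      · have h1 : q ^ tri (((0 : ℕ) : ℤ) - ((m + 1 : ℕ) : ℤ)) =
            q ^ tri (((0 : ℕ) : ℤ) - m) * q ^ (m + 1) := by
          rw [← pow_add]
          congr 1
          have := tri_add_one (((0 : ℕ) : ℤ) - ((m + 1 : ℕ) : ℤ))
          have h2 : (((0 : ℕ) : ℤ) - ((m + 1 : ℕ) : ℤ)) + 1 = ((0 : ℕ) : ℤ) - m := by
            push_cast; ring
          rw [h2] at this
          push_cast at this ⊢
          omega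
        rw [h1]
        simp
    linear_combination -e1 - e2
  | n + 1, m => by
    have ih := finite_jtp q z n m
    rw [prod_range_succ, mul_assoc, mul_comm (1 + z * q ^ n), ← mul_assoc, ih]
    rw [sum_range_succ' _ (n + 1 + m)]
    have hN : n + 1 + m = (n + m) + 1 := by ring
    rw [hN]
    have e0 : ∑ k ∈ range (n + m + 1), z ^ (k + 1) * q ^ tri (((k + 1 : ℕ) : ℤ) - m) * gb q (n + m + 1) (k + 1)
        = ∑ k ∈ range (n + m + 1), z ^ (k + 1) * q ^ tri (((k + 1 : ℕ) : ℤ) - m) * (q ^ (n + m - k) * gb q (n + m) k)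
         + ∑ k ∈ range (n + m + 1), z ^ (k + 1) * q ^ tri (((k + 1 : ℕ) : ℤ) - m) * gb q (n + m) (k + 1) := by
      rw [← sum_add_distrib]
      apply sum_congr rfl
      intro k hk
      have hk' : k ≤ n + m := by have := mem_range.mp hk; omega
      rw [gb_succ_succ' q (n + m) k (n + m - k) (by omega)]
      ring
    rw [e0]
    have e1 : ∑ k ∈ range (n + m + 1), z ^ (k + 1) * q ^ tri (((k + 1 : ℕ) : ℤ) - m) * (q ^ (n + m - k) * gb q (n + m) k)
        = (∑ j ∈ range (n + m + 1), z ^ j * q ^ (tri ((j : ℤ) - m)) * gb q (n + m) j) * (z * q ^ n) := by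
      rw [sum_mul]
      apply sum_congr rfl
      intro k hk
      have hk' : k ≤ n + m := by have := mem_range.mp hk; omega
      have h1 : q ^ tri (((k + 1 : ℕ) : ℤ) - m) * q ^ (n + m - k) = q ^ tri ((k : ℤ) - m) * q ^ n := by
        rw [← pow_add, ← pow_add]
        congr 1
        have := tri_add_one ((k : ℤ) - m)
        have h2 : ((k : ℤ) - m) + 1 = ((k + 1 : ℕ) : ℤ) - m := by push_cast; ring
        rw [h2] at this
        omega
      rw [pow_succ]
      linear_combination (z ^ k * z * gb q (n + m) k) * h1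
    have e2 : ∑ k ∈ range (n + m + 1), z ^ (k + 1) * q ^ tri (((k + 1 : ℕ) : ℤ) - m) * gb q (n + m) (k + 1)
        + z ^ 0 * q ^ tri (((0 : ℕ) : ℤ) - m) * gb q (n + m + 1) 0
        = ∑ j ∈ range (n + m + 1), z ^ j * q ^ (tri ((j : ℤ) - m)) * gb q (n + m) j := by
      rw [sum_range_succ, gb_eq_zero q (n + m) (n + m + 1) (by omega), sum_range_succ' _ (n + m)]
      simp
    linear_combination -e1 - e2

end JTP

end Pool.Agent.H13
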