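import Mathlib

namespace Pool.Agent.Results.MP_ec0d67_nt.SignedPartSums

/-- A partition is odd-distinct if no odd part occurs more than once (even parts may repeat). -/
def IsOddDistinct {m : ℕ} (p : Nat.Partition m) : Prop :=
  ∀ i ∈ p.parts, Odd i → p.parts.count i ≤ 1

instance {m : ℕ} : DecidablePred (@IsOddDistinct m) := fun p =>
  inferInstanceAs (Decidable (∀ i ∈ p.parts, Odd i → p.parts.count i ≤ 1))

/-- The weight `w(λ)`: the sum of the odd parts minus the sum of the even parts, with multiplicity. -/
def w {m : ℕ} (p : Nat.Partition m) : ℤ :=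
  ((p.parts.filter fun i => Odd i).sum : ℤ) - ((p.parts.filter fun i => Even i).sum : ℤ)

/-- `S(m)`: the sum of `w(λ)` over all odd-distinct partitions `λ` of `m`. -/
def S (m : ℕ) : ℤ := ∑ p : Nat.Partition m with IsOddDistinct p, w p

end Pool.Agent.Results.MP_ec0d67_nt.SignedPartSums
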