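import Mathlib
import Pool.Agent.H13.QBinom

open Finset PowerSeries Filter Topology
open scoped PowerSeries.WithPiTopology

namespace Pool.Agent.H13

section Quot
variable {R : Type*} [CommRing R]

/-- quotient map modulo `X^D` -/
noncomputable abbrev qm (R : Type*) [CommRing R] (D : ℕ) :
    R⟦X⟧ →+* R⟦X⟧ ⧸ Ideal.span {(X : R⟦X⟧) ^ D} := Ideal.Quotient.mk _

lemma qm_eq_iff (D : ℕ) (f g : R⟦X⟧) : qm R D f = qm R D g ↔ ∀ d < D, coeff d f = coeff d g := by
  rw [Ideal.Quotient.eq, Ideal.mem_span_singleton, X_pow_dvd_iff]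
  constructor
  · intro h d hd
    have := h d hd
    rwa [map_sub, sub_eq_zero] at this
  · intro h d hd
    rw [map_sub, sub_eq_zero]
    exact h d hd

lemma qm_X_pow (D n : ℕ) (h : D ≤ n) : qm R D (X ^ n) = 0 := by
  rw [Ideal.Quotient.eq_zero_iff_mem, Ideal.mem_span_singleton]
  exact pow_dvd_pow X h

lemma eq_of_qm (f g : R⟦X⟧) (h : ∀ D, qm R D f = qm R D g) : f = g := by
  ext d
  exact (qm_eq_iff (d + 1) f g).mp (h (d + 1)) d (by omega)

variable [TopologicalSpace R]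

lemma continuous_of_coeff {S : Type*} [CommRing S] [TopologicalSpace S] {F : R⟦X⟧ → S⟦X⟧}
    (h : ∀ d, Continuous (fun f => coeff d (F f))) : Continuous F := by
  rw [continuous_iff_continuousAt]
  intro f
  rw [ContinuousAt, PowerSeries.WithPiTopology.tendsto_iff_coeff_tendsto]
  intro d
  exact (h d).continuousAt

lemma continuous_expand (e : ℕ) (he : e ≠ 0) :
    Continuous (fun f : R⟦X⟧ => expand e he f) := by
  apply continuous_of_coeff
  intro d
  simp only [coeff_expand]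
  split_ifs
  · exact PowerSeries.WithPiTopology.continuous_coeff R _
  · exact continuous_const

variable [T2Space R]

lemma qm_hasProd {f : ℕ → R⟦X⟧} {F : R⟦X⟧} (h : HasProd f F) (D : ℕ)
    (hf : ∀ i, D ≤ i → qm R D (f i) = 1) : qm R D F = ∏ i ∈ range D, qm R D (f i) := by
  rw [← map_prod, qm_eq_iff]
  intro d hd
  have h1 : Tendsto (fun s : Finset ℕ => coeff d (∏ i ∈ s, f i)) atTop (𝓝 (coeff d F)) :=
    ((PowerSeries.WithPiTopology.continuous_coeff R d).tendsto F).comp h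
  have h2 : Tendsto (fun s : Finset ℕ => coeff d (∏ i ∈ s, f i)) atTop
      (𝓝 (coeff d (∏ i ∈ range D, f i))) := by
    apply tendsto_nhds_of_eventually_eq
    filter_upwards [eventually_ge_atTop (range D)] with s hs
    apply (qm_eq_iff D _ _).mp _ d hd
    rw [map_prod, map_prod]
    symm
    apply prod_subset hs
    intro i _ hi
    exact hf i (by simpa using hi)
  exact tendsto_nhds_unique h1 h2

lemma qm_hasSum {ι : Type*} {f : ι → R⟦X⟧} {F : R⟦X⟧} (h : HasSum f F) (D : ℕ) (s : Finset ι)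
    (hf : ∀ i, i ∉ s → qm R D (f i) = 0) : qm R D F = ∑ i ∈ s, qm R D (f i) := by
  classical
  rw [← map_sum, qm_eq_iff]
  intro d hd
  have h1 : Tendsto (fun s : Finset ι => coeff d (∑ i ∈ s, f i)) atTop (𝓝 (coeff d F)) :=
    ((PowerSeries.WithPiTopology.continuous_coeff R d).tendsto F).comp h
  have h2 : Tendsto (fun s : Finset ι => coeff d (∑ i ∈ s, f i)) atTop
      (𝓝 (coeff d (∑ i ∈ s, f i))) := by
    apply tendsto_nhds_of_eventually_eq
    filter_upwards [eventually_ge_atTop s] with t hs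
    apply (qm_eq_iff D _ _).mp _ d hd
    rw [map_sum, map_sum]
    symm
    apply sum_subset hs
    intro i _ hi
    exact hf i hi
  exact tendsto_nhds_unique h1 h2

end Quot

section Eta
variable (R : Type*) [CommRing R]

/-- `∏ (1 - X^(e(n+1)))` -/
noncomputable def eta (e : ℕ) (he : e ≠ 0) : R⟦X⟧ := expand e he (pentagonalSeries R)

variable [TopologicalSpace R]

lemma hasProd_eta (e : ℕ) (he : e ≠ 0) :
    HasProd (fun n ↦ (1 - (X ^ e) ^ (n + 1) : R⟦X⟧)) (eta R e he) := by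
  have h := (PowerSeries.WithPiTopology.hasProd_one_sub_X_pow R).map (expand e he)
    (continuous_expand e he)
  unfold eta
  convert h using 1
  funext n
  simp

lemma hasSum_eta (e : ℕ) (he : e ≠ 0) :
    HasSum (fun k : ℤ ↦ (Int.negOnePow k : R⟦X⟧) * (X ^ e) ^ pentagonal k) (eta R e he) := by
  have h := (PowerSeries.WithPiTopology.hasSum_pentagonalSeries R).map (expand e he)
    (continuous_expand e he)
  unfold eta
  convert h using 1
  funext n
  simp

variable [T2Space R]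

lemma qm_poch_stable (e : ℕ) (he : e ≠ 0) (D N : ℕ) (h : D ≤ N) :
    qm R D (poch (X ^ e) N) = qm R D (poch (X ^ e) D) := by
  induction N, h using Nat.le_induction with
  | base => rfl
  | succ N hN ih =>
    rw [poch_succ, map_mul, ih, map_sub, map_one, ← pow_mul, qm_X_pow]
    · ring
    · have : 1 ≤ e := by omega
      nlinarith

lemma qm_eta (e : ℕ) (he : e ≠ 0) (D : ℕ) :
    qm R D (eta R e he) = qm R D (poch (X ^ e) D) := by
  rw [qm_hasProd (hasProd_eta R e he) D]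
  · rw [poch, map_prod]
  · intro i hi
    rw [map_sub, map_one, ← pow_mul, qm_X_pow]
    · ring
    · have : 1 ≤ e := by omega
      nlinarith

lemma isUnit_qm_eta (e : ℕ) (he : e ≠ 0) (D : ℕ) : IsUnit (qm R D (eta R e he)) := by
  rw [qm_eta]
  apply IsUnit.map
  rw [PowerSeries.isUnit_iff_constantCoeff]
  unfold poch
  rw [map_prod]
  have : ∀ i ∈ range D, constantCoeff (1 - ((X : R⟦X⟧) ^ e) ^ (i + 1)) = 1 := by
    intro i _
    rw [map_sub, map_one, ← pow_mul, map_pow, constantCoeff_X, zero_pow, sub_zero]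
    positivity
  rw [prod_congr rfl this]
  simp

lemma qm_gb (e : ℕ) (he : e ≠ 0) (D j l : ℕ) (hj : D ≤ j) (hl : D ≤ l) :
    qm R D (gb (X ^ e) (j + l) j) * qm R D (eta R e he) = 1 := by
  have h := gb_mul_poch ((X : R⟦X⟧) ^ e) (j + l) j l rfl
  have h1 := congrArg (qm R D) h
  rw [map_mul, map_mul, qm_poch_stable R e he D j hj, qm_poch_stable R e he D l hl,
    qm_poch_stable R e he D (j + l) (by omega), ← qm_eta R e he] at h1
  have hu := isUnit_qm_eta R e he D
  apply hu.mul_right_cancel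
  rw [h1, one_mul]

end Eta

section Jacobi
variable {A : Type*} [CommRing A]

lemma gb_map {B : Type*} [CommRing B] (f : A →+* B) (q : A) : ∀ N j : ℕ, f (gb q N j) = gb (f q) N j
  | 0, 0 => by simp [gb]
  | 0, j + 1 => by simp [gb]
  | N + 1, 0 => by simp [gb]
  | N + 1, j + 1 => by
    rw [gb_succ_succ, gb_succ_succ, map_add, map_mul, map_pow, gb_map f q N j, gb_map f q N (j + 1)]

lemma finite_jacobi (q : A) (m : ℕ) :
    (-1) ^ m * poch q m ^ 2 =
      ∑ j ∈ range (2 * m + 2), (-((j : A) * (-1) ^ j)) * (q ^ (tri ((j : ℤ) - m)) * gb q (2 * m + 1) j) := by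
  have h := finite_jtp (Polynomial.C q) (Polynomial.X) (m + 1) m
  rw [prod_range_succ'] at h
  have e0 : m + 1 + m + 1 = 2 * m + 2 := by ring
  have e1 : m + 1 + m = 2 * m + 1 := by ring
  rw [e0, e1] at h
  have h2 : ∀ j ∈ range (2 * m + 2), (Polynomial.X : Polynomial A) ^ j * Polynomial.C q ^ (tri ((j : ℤ) - m)) * gb (Polynomial.C q) (2 * m + 1) j
      = Polynomial.C (q ^ (tri ((j : ℤ) - m)) * gb q (2 * m + 1) j) * Polynomial.X ^ j := by
    intro j _
    rw [← gb_map (Polynomial.C : A →+* Polynomial A), map_mul, map_pow]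
    ring
  rw [sum_congr rfl h2] at h
  have h3 := congrArg (fun p => Polynomial.eval (-1) (Polynomial.derivative p)) h
  simp only [Polynomial.derivative_sum, Polynomial.derivative_C_mul_X_pow, Polynomial.eval_finsetSum] at h3
  rw [mul_assoc, mul_comm, mul_assoc, Polynomial.derivative_mul] at h3
  simp only [Polynomial.eval_add, Polynomial.eval_mul, pow_zero, mul_one, Polynomial.derivative_add,
    Polynomial.derivative_one, Polynomial.derivative_X, zero_add, Polynomial.eval_one,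
    Polynomial.eval_X, add_neg_cancel, zero_mul, add_zero, one_mul, Polynomial.eval_prod,
    Polynomial.eval_pow, Polynomial.eval_C] at h3
  have h4 : (-1) ^ m * poch q m ^ 2 = (∏ x ∈ range m, (-1 + q ^ (x + 1))) * ∏ x ∈ range m, (1 + -1 * q ^ (x + 1)) := by
    have e2 : ∏ x ∈ range m, (-1 + q ^ (x + 1)) = (-1) ^ m * poch q m := by
      have e4 : ∀ x ∈ range m, (-1 + q ^ (x + 1)) = (-1) * (1 - q ^ (x + 1)) := by
        intro x _
        ring
      rw [prod_congr rfl e4, prod_mul_distrib, prod_const, card_range]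
      rfl
    have e3 : ∏ x ∈ range m, (1 + -1 * q ^ (x + 1)) = poch q m := by
      unfold poch
      apply prod_congr rfl
      intro x _
      ring
    rw [e2, e3]
    ring
  rw [h4, h3]
  apply sum_congr rfl
  intro j _
  rcases j with _ | j
  · simp
  · simp only [Nat.add_sub_cancel]
    rw [pow_succ (-1 : A) j]
    ring

lemma neg_one_pow_mul_self' (m : ℕ) : (-1 : A) ^ m * (-1) ^ m = 1 := by
  rw [← pow_add, Even.neg_one_pow ⟨m, rfl⟩]

lemma neg_one_pow_sub (m k : ℕ) (h : k ≤ m) : (-1 : A) ^ (m - k) = (-1) ^ m * (-1) ^ k := by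
  obtain ⟨r, rfl⟩ := Nat.exists_eq_add_of_le h
  rw [show k + r - k = r by omega, pow_add]
  have h1 : (-1 : A) ^ k * (-1) ^ k = 1 := by rw [← mul_pow]; simp
  linear_combination (-(-1 : A) ^ r) * h1

lemma tri_neg (k : ℤ) : tri (-k) = tri (k + 1) := by
  have h1 := two_mul_tri (-k)
  have h2 := two_mul_tri (k + 1)
  have h3 : 2 * (tri (-k) : ℤ) = 2 * (tri (k + 1) : ℤ) := by rw [h1, h2]; ring
  omega

lemma tri_ge (D : ℕ) (k : ℤ) (h : (D : ℤ) + 1 ≤ k ∨ k ≤ -(D : ℤ)) : D ≤ tri k := by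
  have h1 := two_mul_tri k
  rcases Nat.eq_zero_or_pos D with h0 | h0
  · omega
  have h2 : (2 : ℤ) * D ≤ 2 * tri k := by
    rw [h1]
    have hD : (1 : ℤ) ≤ D := by exact_mod_cast h0
    rcases h with h | h
    · nlinarith
    · nlinarith
  omega

end Jacobi

section JacobiInf
variable (R : Type*) [CommRing R] [TopologicalSpace R] [T2Space R]

lemma qm_jacobi (D : ℕ) :
    qm R D (eta R 1 one_ne_zero ^ 3) =
      qm R D (∑ k ∈ range (2 * D + 1), ((-1) ^ k * (2 * (k : R⟦X⟧) + 1)) * X ^ (tri ((k : ℤ) + 1))) := by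
  set m := 2 * D with hm
  have h := finite_jacobi ((X : R⟦X⟧)) m
  have h1 := congrArg (fun f => qm R D f * qm R D (eta R 1 one_ne_zero)) h
  simp only [map_mul, map_pow, map_sum, sum_mul, map_neg, map_one, map_natCast] at h1
  have hF : qm R D (poch X m) = qm R D (eta R 1 one_ne_zero) := by
    have e1 := qm_poch_stable R 1 one_ne_zero D m (by omega)
    rw [← qm_eta] at e1
    simpa using e1
  rw [hF] at h1
  have h2 : ∀ j ∈ range (2 * m + 2), -((j : R⟦X⟧ ⧸ Ideal.span {(X : R⟦X⟧) ^ D}) * (-1) ^ j) *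
      (qm R D X ^ (tri ((j : ℤ) - m)) * qm R D (gb X (2 * m + 1) j)) * qm R D (eta R 1 one_ne_zero) =
      -((j : R⟦X⟧ ⧸ Ideal.span {(X : R⟦X⟧) ^ D}) * (-1) ^ j) * qm R D X ^ (tri ((j : ℤ) - m)) := by
    intro j hj
    have hj' : j < 2 * m + 2 := mem_range.mp hj
    by_cases hc : D ≤ j ∧ j + D ≤ 2 * m + 1
    · have h3 := qm_gb R 1 one_ne_zero D j (2 * m + 1 - j) hc.1 (by omega)
      rw [show j + (2 * m + 1 - j) = 2 * m + 1 by omega, pow_one] at h3
      rw [mul_assoc, mul_assoc, h3, mul_one]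
    · have h3 : D ≤ tri ((j : ℤ) - m) := by
        apply tri_ge
        omega
      rw [← map_pow, qm_X_pow D _ h3]
      ring
  rw [sum_congr rfl h2] at h1
  have h4 : 2 * m + 2 = (m + 1) + (m + 1) := by ring
  rw [h4, sum_range_add, ← sum_range_reflect _ (m + 1), ← sum_add_distrib] at h1
  have h5 : ∀ j ∈ range (m + 1),
      (-(((m + 1 - 1 - j : ℕ) : R⟦X⟧ ⧸ Ideal.span {(X : R⟦X⟧) ^ D}) * (-1) ^ (m + 1 - 1 - j)) * qm R D X ^ (tri (((m + 1 - 1 - j : ℕ) : ℤ) - m)) +
      -(((m + 1 + j : ℕ) : R⟦X⟧ ⧸ Ideal.span {(X : R⟦X⟧) ^ D}) * (-1) ^ (m + 1 + j)) * qm R D X ^ (tri (((m + 1 + j : ℕ) : ℤ) - m)))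
      = (-1) ^ m * (((-1) ^ j * (2 * (j : R⟦X⟧ ⧸ Ideal.span {(X : R⟦X⟧) ^ D}) + 1)) * qm R D X ^ (tri ((j : ℤ) + 1))) := by
    intro j hj
    have hj' : j ≤ m := by have := mem_range.mp hj; omega
    have e1 : m + 1 - 1 - j = m - j := by omega
    have e2 : (((m - j : ℕ) : ℤ) - m) = -(j : ℤ) := by omega
    have e3 : (((m + 1 + j : ℕ) : ℤ) - m) = (j : ℤ) + 1 := by push_cast; ring
    rw [e1, e2, e3, tri_neg, neg_one_pow_sub m j hj', pow_add, pow_add, Nat.cast_sub hj']
    push_cast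
    ring
  rw [sum_congr rfl h5, ← mul_sum] at h1
  have h6 : ((-1 : R⟦X⟧ ⧸ Ideal.span {(X : R⟦X⟧) ^ D}) ^ m) * (-1) ^ m = 1 := by
    exact neg_one_pow_mul_self' m
  have h7 : qm R D (eta R 1 one_ne_zero) ^ 3 = ∑ i ∈ range (m + 1), (-1) ^ i * (2 * (i : R⟦X⟧ ⧸ Ideal.span {(X : R⟦X⟧) ^ D}) + 1) * qm R D X ^ tri ((i : ℤ) + 1) := by
    linear_combination ((-1 : R⟦X⟧ ⧸ Ideal.span {(X : R⟦X⟧) ^ D}) ^ m) * h1 -
      (qm R D (eta R 1 one_ne_zero) ^ 3 - ∑ i ∈ range (m + 1), (-1) ^ i * (2 * (i : R⟦X⟧ ⧸ Ideal.span {(X : R⟦X⟧) ^ D}) + 1) * qm R D X ^ tri ((i : ℤ) + 1)) * h6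
  rw [map_pow, h7, map_sum]
  apply sum_congr rfl
  intro k _
  have h8 : qm R D 2 = 2 := map_ofNat (qm R D) 2
  simp only [map_mul, map_pow, map_neg, map_one, map_add, map_natCast, h8]

theorem hasSum_jacobi :
    HasSum (fun k : ℕ => ((-1) ^ k * (2 * (k : R⟦X⟧) + 1)) * X ^ (tri ((k : ℤ) + 1)))
      (eta R 1 one_ne_zero ^ 3) := by
  rw [PowerSeries.WithPiTopology.hasSum_iff_hasSum_coeff]
  intro d
  have h := (qm_eq_iff (d + 1) _ _).mp (qm_jacobi R (d + 1)) d (by omega)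
  rw [h, map_sum]
  apply hasSum_sum_of_ne_finset_zero
  intro k hk
  have hk' : 2 * (d + 1) < k := by
    have := mem_range.not.mp hk
    omega
  have h3 : d + 1 ≤ tri ((k : ℤ) + 1) := by
    apply tri_ge
    left
    omega
  rw [coeff_mul_X_pow']
  rw [if_neg (by omega)]

end JacobiInf

end Pool.Agent.H13
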