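import Mathlib
import Pool.Agent.H13.Theta

open Finset PowerSeries Filter Topology
open scoped PowerSeries.WithPiTopology

namespace Pool.Agent.H13

section Phi
variable (R : Type*) [CommRing R] [IsDomain R]

lemma finite_gauss (M : ℕ) :
    (∏ i ∈ range M, (1 + (X : R⟦X⟧) ^ (2 * i + 1))) ^ 2 =
      ∑ j ∈ range (2 * M + 1), X ^ ((((j : ℤ) - M) ^ 2).toNat) * gb (X ^ 2) (2 * M) j := by
  have h := finite_jtp ((X : R⟦X⟧) ^ 2) X M M
  have e1 : ∏ i ∈ range M, (1 + (X : R⟦X⟧) * (X ^ 2) ^ i) = ∏ i ∈ range M, (1 + (X : R⟦X⟧) ^ (2 * i + 1)) := by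
    apply prod_congr rfl
    intro i _
    rw [← pow_mul, pow_succ']
  have e2 : ∏ i ∈ range M, ((X : R⟦X⟧) + (X ^ 2) ^ (i + 1)) = X ^ M * ∏ i ∈ range M, (1 + (X : R⟦X⟧) ^ (2 * i + 1)) := by
    have e4 : ∀ x ∈ range M, ((X : R⟦X⟧) + (X ^ 2) ^ (x + 1)) = X * (1 + (X : R⟦X⟧) ^ (2 * x + 1)) := by
      intro x _
      rw [← pow_mul]
      ring
    rw [prod_congr rfl e4, prod_mul_distrib, prod_const, card_range]
  have e3 : ∀ j ∈ range (M + M + 1), (X : R⟦X⟧) ^ j * (X ^ 2) ^ tri ((j : ℤ) - M) * gb (X ^ 2) (M + M) j =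
      X ^ M * (X ^ ((((j : ℤ) - M) ^ 2).toNat) * gb (X ^ 2) (2 * M) j) := by
    intro j _
    have e5 : (X : R⟦X⟧) ^ j * (X ^ 2) ^ tri ((j : ℤ) - M) = X ^ M * X ^ ((((j : ℤ) - M) ^ 2).toNat) := by
      rw [← pow_mul, ← pow_add, ← pow_add]
      congr 1
      have h1 := two_mul_tri ((j : ℤ) - M)
      have h2 : ((((j : ℤ) - M) ^ 2).toNat : ℤ) = ((j : ℤ) - M) ^ 2 := Int.toNat_of_nonneg (sq_nonneg _)
      have h3 : (((j + 2 * tri ((j : ℤ) - M) : ℕ)) : ℤ) = ((M + ((((j : ℤ) - M) ^ 2).toNat) : ℕ) : ℤ) := by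
        push_cast [h2]
        rw [h1]
        ring
      exact_mod_cast h3
    rw [e5, show M + M = 2 * M by ring]
    ring
  rw [e1, e2, sum_congr rfl e3, ← mul_sum] at h
  have hX : (X : R⟦X⟧) ^ M ≠ 0 := pow_ne_zero _ PowerSeries.X_ne_zero
  apply mul_left_cancel₀ hX
  rw [show 2 * M + 1 = M + M + 1 by ring, ← h]
  ring

variable [TopologicalSpace R] [T2Space R]

lemma phi_qm (φ : R⟦X⟧) (hφ : HasSum (fun m : ℤ => (X : R⟦X⟧) ^ ((m ^ 2).toNat)) φ) (D : ℕ) :
    qm R D φ = qm R D (∏ i ∈ range (2 * D), (1 + (X : R⟦X⟧) ^ (2 * i + 1))) ^ 2 * qm R D (eta R 2 two_ne_zero) := by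
  set M := 2 * D with hM
  have h := congrArg (fun f => qm R D f * qm R D (eta R 2 two_ne_zero)) (finite_gauss R M)
  simp only [map_pow, map_sum, sum_mul, map_mul] at h
  rw [h]
  let ι : ℕ ↪ ℤ := ⟨fun j => (j : ℤ) - M, fun a b h => by simpa using h⟩
  rw [qm_hasSum hφ D ((range (2 * M + 1)).map ι)]
  · rw [sum_map]
    apply sum_congr rfl
    intro j hj
    have hj' : j < 2 * M + 1 := mem_range.mp hj
    show qm R D (X ^ ((((j : ℤ) - M) ^ 2).toNat)) = _
    by_cases hc : D ≤ j ∧ j + D ≤ 2 * M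
    · have h3 := qm_gb R 2 two_ne_zero D j (2 * M - j) hc.1 (by omega)
      rw [show j + (2 * M - j) = 2 * M by omega] at h3
      rw [mul_assoc, h3, mul_one, ← map_pow]
    · have h3 : D ≤ (((j : ℤ) - M) ^ 2).toNat := by
        have h4 : (D : ℤ) ≤ ((j : ℤ) - M) ^ 2 := by
          rcases Nat.eq_zero_or_pos D with h0 | h0
          · rw [h0]; positivity
          · have hD : (1 : ℤ) ≤ D := by exact_mod_cast h0
            have hMD : (M : ℤ) = 2 * D := by rw [hM]; push_cast; ring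
            have h5 : (j : ℤ) - M ≤ -(D : ℤ) ∨ (D : ℤ) ≤ (j : ℤ) - M := by omega
            rcases h5 with h5 | h5
            · nlinarith
            · nlinarith
        omega
      rw [qm_X_pow D _ h3]
      have h4 := qm_X_pow (R := R) D _ h3
      rw [map_pow] at h4
      rw [h4]
      ring
  · intro m hm
    apply qm_X_pow
    have h6 : m < -(M : ℤ) ∨ (M : ℤ) < m := by
      by_contra hcon
      push Not at hcon
      apply hm
      rw [Finset.mem_map]
      refine ⟨(m + M).toNat, ?_, ?_⟩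
      · rw [mem_range]; omega
      · show (((m + M).toNat : ℕ) : ℤ) - M = m
        omega
    have h4 : (D : ℤ) ≤ m ^ 2 := by
      have hMD : (M : ℤ) = 2 * D := by rw [hM]; push_cast; ring
      have hD : (0 : ℤ) ≤ D := by positivity
      rcases h6 with h5 | h5
      · nlinarith
      · nlinarith
    omega

lemma poch_split1 (M : ℕ) : poch (X : R⟦X⟧) (2 * M) =
    (∏ i ∈ range M, (1 - (X : R⟦X⟧) ^ (2 * i + 1))) * poch (X ^ 2) M := by
  induction M with
  | zero => simp [poch]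
  | succ M ih =>
    rw [show 2 * (M + 1) = 2 * M + 1 + 1 by ring, poch_succ, poch_succ, ih, prod_range_succ, poch_succ]
    rw [← pow_mul, show 2 * M + 1 + 1 = 2 * (M + 1) by ring]
    ring

lemma poch_split2 (M : ℕ) : poch ((X : R⟦X⟧) ^ 2) (2 * M) =
    (∏ i ∈ range M, (1 + (X : R⟦X⟧) ^ (2 * i + 1))) * (∏ i ∈ range M, (1 - (X : R⟦X⟧) ^ (2 * i + 1))) *
      poch (X ^ 4) M := by
  induction M with
  | zero => simp [poch]
  | succ M ih =>
    rw [show 2 * (M + 1) = 2 * M + 1 + 1 by ring, poch_succ, poch_succ, ih, prod_range_succ, prod_range_succ, poch_succ]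
    rw [← pow_mul, ← pow_mul, ← pow_mul, show 2 * (2 * M + 1 + 1) = 4 * (M + 1) by ring,
      show 2 * (2 * M + 1) = (2 * M + 1) + (2 * M + 1) by ring, pow_add X (2 * M + 1) (2 * M + 1)]
    ring

theorem phi_identity (φ : R⟦X⟧) (hφ : HasSum (fun m : ℤ => (X : R⟦X⟧) ^ ((m ^ 2).toNat)) φ) :
    φ * eta R 1 one_ne_zero ^ 2 * eta R 4 four_ne_zero ^ 2 = eta R 2 two_ne_zero ^ 5 := by
  apply eq_of_qm
  intro D
  have h1 := phi_qm R φ hφ D
  have h2 := congrArg (qm R D) (poch_split1 R (2 * D))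
  have h3 := congrArg (qm R D) (poch_split2 R (2 * D))
  have k1 := qm_poch_stable R 1 one_ne_zero D (2 * (2 * D)) (by omega)
  have k2 := qm_poch_stable R 2 two_ne_zero D (2 * D) (by omega)
  have k3 := qm_poch_stable R 2 two_ne_zero D (2 * (2 * D)) (by omega)
  have k4 := qm_poch_stable R 4 four_ne_zero D (2 * D) (by omega)
  rw [← qm_eta R 1 one_ne_zero] at k1
  rw [← qm_eta R 2 two_ne_zero] at k2 k3
  rw [← qm_eta R 4 four_ne_zero] at k4
  rw [pow_one] at k1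
  rw [map_mul, k1, k2] at h2
  rw [map_mul, map_mul, k3, k4] at h3
  rw [map_mul, map_mul, map_pow, map_pow, map_pow, h1, h2]
  set a := qm R D (∏ i ∈ range (2 * D), (1 + (X : R⟦X⟧) ^ (2 * i + 1)))
  set b := qm R D (∏ i ∈ range (2 * D), (1 - (X : R⟦X⟧) ^ (2 * i + 1)))
  set f2 := qm R D (eta R 2 two_ne_zero)
  set f4 := qm R D (eta R 4 four_ne_zero)
  calc a ^ 2 * f2 * (b * f2) ^ 2 * f4 ^ 2 = (a * b * f4) ^ 2 * f2 ^ 3 := by ring
    _ = f2 ^ 5 := by rw [← h3]; ring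

end Phi

end Pool.Agent.H13
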