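import Mathlib
import Pool.Agent.H13.Theta2

open Finset PowerSeries Filter Topology
open scoped PowerSeries.WithPiTopology

namespace Pool.Agent.H13

section Fam
variable {R : Type*} [CommRing R]

/-- monomial family with integral weights -/
noncomputable def fam (R : Type*) [CommRing R] {ι : Type*} (c : ι → ℤ) (e : ι → ℕ) : ι → R⟦X⟧ :=
  fun x => ((c x : ℤ) : R⟦X⟧) * X ^ (e x)

/-- exponents tending to infinity -/
def Proper {ι : Type*} (e : ι → ℕ) : Prop := ∀ d, {x | e x ≤ d}.Finite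

lemma Proper.add {ι κ : Type*} {e : ι → ℕ} {e' : κ → ℕ} (h : Proper e) (h' : Proper e') :
    Proper (fun p : ι × κ => e p.1 + e' p.2) := by
  intro d
  apply ((h d).prod (h' d)).subset
  rintro ⟨x, y⟩ hxy
  simp only [Set.mem_ofPred_eq] at hxy
  simp only [Set.mem_prod, Set.mem_ofPred_eq]
  omega

lemma fam_mul {ι κ : Type*} (c : ι → ℤ) (e : ι → ℕ) (c' : κ → ℤ) (e' : κ → ℕ) (p : ι × κ) :
    fam R c e p.1 * fam R c' e' p.2 =
      fam R (fun p : ι × κ => c p.1 * c' p.2) (fun p => e p.1 + e' p.2) p := by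
  unfold fam
  push_cast
  rw [pow_add]
  ring

variable [TopologicalSpace R]

instance [RegularSpace R] : RegularSpace R⟦X⟧ :=
  inferInstanceAs (RegularSpace ((Unit →₀ ℕ) → R))

instance [T2Space R] [RegularSpace R] : T3Space R⟦X⟧ where

lemma summable_fam {ι : Type*} (c : ι → ℤ) (e : ι → ℕ) (h : Proper e) : Summable (fam R c e) := by
  rw [PowerSeries.WithPiTopology.summable_iff_summable_coeff]
  intro d
  apply summable_of_hasFiniteSupport
  apply (h d).subset
  intro x hx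
  simp only [Function.mem_support] at hx
  simp only [Set.mem_ofPred_eq]
  by_contra hcon
  apply hx
  unfold fam
  rw [coeff_mul_X_pow', if_neg hcon]

variable [T2Space R] [RegularSpace R] [IsTopologicalRing R]

lemma hasSum_fam_mul {ι κ : Type*} {c : ι → ℤ} {e : ι → ℕ} {c' : κ → ℤ} {e' : κ → ℕ}
    {F G : R⟦X⟧} (he : Proper e) (he' : Proper e')
    (hF : HasSum (fam R c e) F) (hG : HasSum (fam R c' e') G) :
    HasSum (fam R (fun p : ι × κ => c p.1 * c' p.2) (fun p => e p.1 + e' p.2)) (F * G) := by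
  have hfun : (fun x : ι × κ => fam R c e x.1 * fam R c' e' x.2) =
      fam R (fun p : ι × κ => c p.1 * c' p.2) (fun p => e p.1 + e' p.2) :=
    funext (fam_mul c e c' e')
  have hs : Summable (fun x : ι × κ => fam R c e x.1 * fam R c' e' x.2) := by
    rw [hfun]
    exact summable_fam (R := R) (fun p : ι × κ => c p.1 * c' p.2) (fun p => e p.1 + e' p.2) (he.add he')
  have h := HasSum.mul hF hG hs
  rw [hfun] at h
  exact h

end Fam

lemma nn_a (x : ℤ) : 0 ≤ 2 * x ^ 2 + 2 * x := by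
  rcases le_or_gt 0 x with h | h
  · nlinarith
  · nlinarith

lemma nn_b (x : ℤ) : 0 ≤ 3 * x ^ 2 + 2 * x := by
  rcases le_or_gt 0 x with h | h
  · nlinarith
  · nlinarith

lemma nn_c (x : ℤ) : 0 ≤ 6 * x ^ 2 + 2 * x := by
  rcases le_or_gt 0 x with h | h
  · nlinarith
  · nlinarith

lemma nn_c' (x : ℤ) : 0 ≤ 6 * x ^ 2 - 2 * x := by
  rcases le_or_gt 0 x with h | h
  · rcases eq_or_lt_of_le h with rfl | h1
    · norm_num
    · nlinarith
  · nlinarith

lemma nn_d (x : ℤ) : 0 ≤ 3 * x ^ 2 + 4 * x + 1 := by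
  rcases le_or_gt 0 x with h | h
  · nlinarith
  · rcases eq_or_lt_of_le (show x ≤ -1 by omega) with rfl | h1
    · norm_num
    · nlinarith

lemma nn_e (x : ℤ) : 0 ≤ 3 * x ^ 2 + 6 * x + 4 := by nlinarith [sq_nonneg (x + 1)]

lemma nn_f (x : ℤ) : 0 ≤ 6 * x ^ 2 - 6 * x := by
  rcases le_or_gt 0 x with h | h
  · rcases eq_or_lt_of_le h with rfl | h1
    · norm_num
    · nlinarith
  · nlinarith

lemma proper_of_bound (e : ℤ → ℕ) (h : ∀ x : ℤ, |x| ≤ e x + 3) : Proper e := by
  intro d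
  apply (Set.finite_Icc (-(d : ℤ) - 3) ((d : ℤ) + 3)).subset
  intro x hx
  simp only [Set.mem_ofPred_eq] at hx
  rw [Set.mem_Icc]
  have := h x
  have h2 := abs_le.mp this
  constructor <;> omega

def eSq (m : ℤ) : ℕ := (m ^ 2).toNat
def eA (n : ℤ) : ℕ := (2 * n ^ 2 + 2 * n).toNat
def eB (n : ℤ) : ℕ := (3 * n ^ 2 + 2 * n).toNat
def eC (n : ℤ) : ℕ := (6 * n ^ 2 + 2 * n).toNat
def eC' (n : ℤ) : ℕ := (6 * n ^ 2 - 2 * n).toNat
def eD (n : ℤ) : ℕ := (3 * n ^ 2 + 4 * n + 1).toNat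
def eE (n : ℤ) : ℕ := (3 * n ^ 2 + 6 * n + 4).toNat
def eF (n : ℤ) : ℕ := (6 * n ^ 2 - 6 * n).toNat

lemma cSq (m : ℤ) : (eSq m : ℤ) = m ^ 2 := Int.toNat_of_nonneg (sq_nonneg _)
lemma cA (m : ℤ) : (eA m : ℤ) = 2 * m ^ 2 + 2 * m := Int.toNat_of_nonneg (nn_a m)
lemma cB (m : ℤ) : (eB m : ℤ) = 3 * m ^ 2 + 2 * m := Int.toNat_of_nonneg (nn_b m)
lemma cC (m : ℤ) : (eC m : ℤ) = 6 * m ^ 2 + 2 * m := Int.toNat_of_nonneg (nn_c m)
lemma cC' (m : ℤ) : (eC' m : ℤ) = 6 * m ^ 2 - 2 * m := Int.toNat_of_nonneg (nn_c' m)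
lemma cD (m : ℤ) : (eD m : ℤ) = 3 * m ^ 2 + 4 * m + 1 := Int.toNat_of_nonneg (nn_d m)
lemma cE (m : ℤ) : (eE m : ℤ) = 3 * m ^ 2 + 6 * m + 4 := Int.toNat_of_nonneg (nn_e m)
lemma cF (m : ℤ) : (eF m : ℤ) = 6 * m ^ 2 - 6 * m := Int.toNat_of_nonneg (nn_f m)

lemma pSq : Proper eSq := by
  apply proper_of_bound
  intro x
  rw [cSq, abs_le]
  constructor <;> nlinarith [sq_nonneg (x - 1), sq_nonneg (x + 1)]
lemma pA : Proper eA := by
  apply proper_of_bound
  intro x
  rw [cA, abs_le]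
  constructor <;> nlinarith [sq_nonneg (x - 1), sq_nonneg (x + 1)]
lemma pB : Proper eB := by
  apply proper_of_bound
  intro x
  rw [cB, abs_le]
  constructor <;> nlinarith [sq_nonneg (x - 1), sq_nonneg (x + 1)]
lemma pC : Proper eC := by
  apply proper_of_bound
  intro x
  rw [cC, abs_le]
  constructor <;> nlinarith [sq_nonneg (x - 1), sq_nonneg (x + 1)]
lemma pC' : Proper eC' := by
  apply proper_of_bound
  intro x
  rw [cC', abs_le]
  constructor <;> nlinarith [sq_nonneg (x - 1), sq_nonneg (x + 1)]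
lemma pD : Proper eD := by
  apply proper_of_bound
  intro x
  rw [cD, abs_le]
  constructor <;> nlinarith [sq_nonneg (x - 1), sq_nonneg (x + 1)]
lemma pE : Proper eE := by
  apply proper_of_bound
  intro x
  rw [cE, abs_le]
  constructor <;> nlinarith [sq_nonneg (x - 1), sq_nonneg (x + 1)]
lemma pF : Proper eF := by
  apply proper_of_bound
  intro x
  rw [cF, abs_le]
  constructor <;> nlinarith [sq_nonneg (x - 1), sq_nonneg (x + 1)]

/-- sign -/
def sg (n : ℤ) : ℤ := (Int.negOnePow n : ℤ)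

lemma sg_add (a b : ℤ) : sg (a + b) = sg a * sg b := by
  unfold sg; rw [Int.negOnePow_add]; simp
lemma sg_neg (a : ℤ) : sg (-a) = sg a := by
  unfold sg; rw [Int.negOnePow_neg]
lemma sg_one : sg 1 = -1 := by
  unfold sg; simp
lemma sg_two : sg 2 = 1 := by
  unfold sg; rfl
lemma sg_sq (a : ℤ) : sg a * sg a = 1 := by
  rw [← sg_add]; unfold sg; rw [Int.negOnePow_even _ ⟨a, rfl⟩]; rfl

section Zero
variable {R : Type*} [CommRing R] [IsDomain R] [TopologicalSpace R] [T2Space R]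
  [RegularSpace R] [IsTopologicalRing R]

omit [IsDomain R] [RegularSpace R] in
lemma zero_of_anti (h2 : (2 : R⟦X⟧) ≠ 0) [IsDomain R] (c : ℤ → ℤ) (e : ℤ → ℕ) (σ : ℤ ≃ ℤ)
    (hc : ∀ x, c (σ x) = - c x) (he : ∀ x, e (σ x) = e x) {F : R⟦X⟧}
    (hF : HasSum (fam R c e) F) : F = 0 := by
  have h1 : HasSum (fam R c e ∘ σ) F := (Equiv.hasSum_iff σ).mpr hF
  have h3 : fam R c e ∘ σ = fun x => - fam R c e x := by
    funext x
    simp only [Function.comp, fam, hc, he]
    push_cast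
    ring
  rw [h3] at h1
  have h4 := hF.neg
  have h5 := h1.unique h4
  have h6 : (2 : R⟦X⟧) * F = 0 := by linear_combination h5
  exact (mul_eq_zero.mp h6).resolve_left h2

end Zero

/-- the change of variables -/
def reindex : Fin 3 × (ℤ × ℤ) ≃ ℤ × ℤ where
  toFun := fun x => (x.2.1 + (x.1 : ℤ) - 2 * x.2.2, x.2.2 + x.2.1)
  invFun := fun y => (⟨((y.1 + 2 * y.2) % 3).toNat, by omega⟩,
    ((y.1 + 2 * y.2) / 3, y.2 - (y.1 + 2 * y.2) / 3))
  left_inv := by
    rintro ⟨r, j, n⟩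
    have hr := r.isLt
    have e1 : (j + ((r : ℕ) : ℤ) - 2 * n + 2 * (n + j)) / 3 = j := by omega
    have e2 : (j + ((r : ℕ) : ℤ) - 2 * n + 2 * (n + j)) % 3 = ((r : ℕ) : ℤ) := by omega
    simp only [e1, e2, Int.toNat_natCast, Prod.mk.injEq, true_and, Fin.eta]
    omega
  right_inv := by
    rintro ⟨m, n⟩
    simp only [Prod.mk.injEq]
    constructor
    · rw [Int.toNat_of_nonneg (by omega)]
      omega
    · omega

section Main
variable (R : Type*) [CommRing R] [IsDomain R] [TopologicalSpace R] [T2Space R]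
  [RegularSpace R] [IsTopologicalRing R]

theorem double_sum (h2 : (2 : R⟦X⟧) ≠ 0) (φ J2 f4 Y : R⟦X⟧)
    (hφ : HasSum (fam R (fun _ => 1) eSq) φ)
    (hJ : HasSum (fam R (fun n => sg n * (2 * n + 1)) eA) J2)
    (hf : HasSum (fam R sg eC') f4)
    (hY : HasSum (fam R (fun j => sg j * (3 * j + 1)) eB) Y) :
    φ * J2 = 2 * (Y * f4) := by
  -- auxiliary sums
  obtain ⟨A0, hA0⟩ := summable_fam (R := R) (fun m : ℤ => m) eSq pSq
  obtain ⟨A1, hA1⟩ := summable_fam (R := R) sg eA pA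
  have hA00 : A0 = 0 := by
    apply zero_of_anti h2 _ _ (Equiv.neg ℤ) _ _ hA0
    · intro x; simp
    · intro x
      have : (eSq (-x) : ℤ) = eSq x := by rw [cSq, cSq]; ring
      exact_mod_cast this
  -- the double sum
  have hW1 := (hasSum_fam_mul pSq pA hφ hJ).add (hasSum_fam_mul pSq pA hA0 hA1)
  rw [hA00, zero_mul, add_zero] at hW1
  have hW : HasSum (fam R (fun p : ℤ × ℤ => sg p.2 * (p.1 + 2 * p.2 + 1)) (fun p => eSq p.1 + eA p.2))
      (φ * J2) := by
    convert hW1 using 1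
    funext p
    simp only [fam]
    push_cast
    ring
  have hW' := (Equiv.hasSum_iff reindex).mpr hW
  -- the three pieces
  have hf' : HasSum (fam R sg eC) f4 := by
    have h1 := (Equiv.hasSum_iff (Equiv.neg ℤ)).mpr hf
    convert h1 using 1
    funext n
    simp only [Function.comp, fam, Equiv.neg_apply, sg_neg]
    have : (eC n : ℤ) = eC' (-n) := by rw [cC, cC']; ring
    rw [show eC n = eC' (-n) by exact_mod_cast this]
  have hY' : HasSum (fam R (fun j => sg j * (3 * j + 2)) eD) Y := by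
    have h1 := (Equiv.hasSum_iff (Equiv.subLeft (-1 : ℤ))).mpr hY
    convert h1 using 1
    funext n
    simp only [Function.comp, fam, Equiv.subLeft_apply]
    have e1 : (eD n : ℤ) = eB (-1 - n) := by rw [cD, cB]; ring
    have e2 : sg (-1 - n) = - sg n := by
      rw [show -1 - n = -(1 + n) by ring, sg_neg, sg_add, sg_one]; ring
    rw [show eD n = eB (-1 - n) by exact_mod_cast e1, e2]
    push_cast
    ring
  obtain ⟨B0, hB0⟩ := summable_fam (R := R) (fun j : ℤ => sg j * (3 * (j + 1))) eE pE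
  obtain ⟨B1, hB1⟩ := summable_fam (R := R) sg eF pF
  have hB00 : B0 = 0 := by
    apply zero_of_anti h2 _ _ (Equiv.subLeft (-2 : ℤ)) _ _ hB0
    · intro x
      simp only [Equiv.subLeft_apply]
      have e2 : sg (-2 - x) = sg x := by
        rw [show -2 - x = -(2 + x) by ring, sg_neg, sg_add, sg_two]; ring
      rw [e2]
      ring
    · intro x
      simp only [Equiv.subLeft_apply]
      have : (eE (-2 - x) : ℤ) = eE x := by rw [cE, cE]; ring
      exact_mod_cast this
  let g : Fin 3 → R⟦X⟧ := ![Y * f4, Y * f4, 0]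
  have hg : HasSum g (φ * J2) := by
    apply HasSum.prod_fiberwise hW'
    intro r
    fin_cases r
    · have h1 := hasSum_fam_mul pB pC hY hf'
      convert h1 using 1
      funext p
      rcases p with ⟨j, n⟩
      simp only [Function.comp, fam, reindex, Equiv.coe_fn_mk]
      have e1 : ((eSq (j + ((((0 : Fin 3) : ℕ)) : ℤ) - 2 * n) + eA (n + j) : ℕ) : ℤ) = ((eB j + eC n : ℕ) : ℤ) := by
        push_cast
        rw [cSq, cA, cB, cC]
        simp
        ring
      have e2 : eSq (j + ((((0 : Fin 3) : ℕ)) : ℤ) - 2 * n) + eA (n + j) = eB j + eC n := by exact_mod_cast e1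
      have e3 : sg (n + j) * (j + ((((0 : Fin 3) : ℕ)) : ℤ) - 2 * n + 2 * (n + j) + 1) = sg j * (3 * j + 1) * sg n := by
        rw [sg_add]
        simp
        ring
      first
        | rw [e2, e3]
        | (erw [e2, e3]; rfl)
    · have h1 := hasSum_fam_mul pD pC' hY' hf
      convert h1 using 1
      funext p
      rcases p with ⟨j, n⟩
      simp only [Function.comp, fam, reindex, Equiv.coe_fn_mk]
      have e1 : ((eSq (j + ((((1 : Fin 3) : ℕ)) : ℤ) - 2 * n) + eA (n + j) : ℕ) : ℤ) = ((eD j + eC' n : ℕ) : ℤ) := by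
        push_cast
        rw [cSq, cA, cD, cC']
        simp
        ring
      have e2 : eSq (j + ((((1 : Fin 3) : ℕ)) : ℤ) - 2 * n) + eA (n + j) = eD j + eC' n := by exact_mod_cast e1
      have e3 : sg (n + j) * (j + ((((1 : Fin 3) : ℕ)) : ℤ) - 2 * n + 2 * (n + j) + 1) = sg j * (3 * j + 2) * sg n := by
        rw [sg_add]
        simp
        ring
      first
        | rw [e2, e3]
        | (erw [e2, e3]; rfl)
    · have h1 := hasSum_fam_mul pE pF hB0 hB1
      rw [hB00, zero_mul] at h1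
      convert h1 using 1
      funext p
      rcases p with ⟨j, n⟩
      simp only [Function.comp, fam, reindex, Equiv.coe_fn_mk]
      have e1 : ((eSq (j + ((((2 : Fin 3) : ℕ)) : ℤ) - 2 * n) + eA (n + j) : ℕ) : ℤ) = ((eE j + eF n : ℕ) : ℤ) := by
        push_cast
        rw [cSq, cA, cE, cF]
        simp
        ring
      have e2 : eSq (j + ((((2 : Fin 3) : ℕ)) : ℤ) - 2 * n) + eA (n + j) = eE j + eF n := by exact_mod_cast e1
      have e3 : sg (n + j) * (j + ((((2 : Fin 3) : ℕ)) : ℤ) - 2 * n + 2 * (n + j) + 1) = sg j * (3 * (j + 1)) * sg n := by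
        rw [sg_add]
        simp
        ring
      first
        | rw [e2, e3]
        | (erw [e2, e3]; rfl)
  have h3 := hg.unique (hasSum_fintype g)
  rw [h3, Fin.sum_univ_three]
  simp [g]
  ring

end Main

end Pool.Agent.H13
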