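import Mathlib
import Pool.Agent.H13.SignedDefs
import Pool.Agent.H13.Theta3

open Finset PowerSeries Filter Topology
open scoped PowerSeries.WithPiTopology

namespace Pool.Agent.Results.MP_ec0d67_nt.SignedPartSums

open Pool.Agent.H13

abbrev K := ZMod 7
abbrev E := DualNumber K

/-- `1 + n ε` -/
def u (n : ℤ) : E := 1 + TrivSqZeroExt.inr ((n : ℤ) : K)

lemma u_zero : u 0 = 1 := by simp [u]

lemma u_add (a b : ℤ) : u (a + b) = u a * u b := by
  unfold u
  ext
  · simp
  · simp [add_comm]

lemma u_pow (a : ℤ) (n : ℕ) : u a ^ n = u (n * a) := by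
  induction n with
  | zero => simp [u_zero]
  | succ n ih =>
    rw [pow_succ, ih, ← u_add]
    congr 1
    push_cast
    ring

lemma u_sum {ι : Type*} (s : Finset ι) (f : ι → ℤ) : u (∑ i ∈ s, f i) = ∏ i ∈ s, u (f i) := by
  classical
  induction s using Finset.induction_on with
  | empty => simp [u_zero]
  | insert a s ha ih => rw [sum_insert ha, prod_insert ha, u_add, ih]

/-- signed part -/
def sp (i : ℕ) : ℤ := if Odd i then (i : ℤ) else -(i : ℤ)

/-- weights -/
def wt (i c : ℕ) : E :=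
  if Odd i then (if c = 1 then -u i else 0) else u (-(i * c : ℤ))

lemma wt_eq (i c : ℕ) (hc : 1 ≤ c) (h : Odd i → c ≤ 1) : wt i c = (-1) ^ (i * c) * u (c * sp i) := by
  unfold wt sp
  split_ifs with h1 h2
  · subst h2
    rw [mul_one, Odd.neg_one_pow h1]
    simp
  · have := h h1
    omega
  · rw [Nat.not_odd_iff_even] at h1
    rw [Even.neg_one_pow (h1.mul_right c), one_mul]
    congr 1
    ring

lemma w_eq {m : ℕ} (p : Nat.Partition m) : w p = ∑ i ∈ p.parts.toFinset, (p.parts.count i : ℤ) * sp i := by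
  have h1 : ∀ s : Multiset ℕ, ((s.filter fun i => Odd i).sum : ℤ) - ((s.filter fun i => Even i).sum : ℤ)
      = (s.map sp).sum := by
    intro s
    induction s using Multiset.induction_on with
    | empty => simp
    | cons a s ih =>
      rw [Multiset.map_cons, Multiset.sum_cons, ← ih]
      by_cases ha : Odd a
      · rw [Multiset.filter_cons_of_pos _ ha, Multiset.filter_cons_of_neg _ (Nat.not_even_iff_odd.mpr ha),
          Multiset.sum_cons]
        unfold sp
        rw [if_pos ha]
        push_cast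
        ring
      · rw [Multiset.filter_cons_of_neg _ ha, Multiset.filter_cons_of_pos _ (Nat.not_odd_iff_even.mp ha),
          Multiset.sum_cons]
        unfold sp
        rw [if_neg ha]
        push_cast
        ring
  unfold w
  rw [h1, Finset.sum_multiset_map_count]
  simp

lemma prod_wt {m : ℕ} (p : Nat.Partition m) : p.parts.toFinsupp.prod wt =
    if IsOddDistinct p then (-1) ^ m * u (w p) else 0 := by
  rw [Finsupp.prod]
  simp only [Multiset.toFinsupp_support, Multiset.toFinsupp_apply]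
  split_ifs with h
  · have h1 : ∀ i ∈ p.parts.toFinset, wt i (p.parts.count i) =
        (-1) ^ (i * p.parts.count i) * u (p.parts.count i * sp i) := by
      intro i hi
      have hi' := Multiset.mem_toFinset.mp hi
      exact wt_eq i _ (Multiset.one_le_count_iff_mem.mpr hi') (fun ho => h i hi' ho)
    rw [prod_congr rfl h1, prod_mul_distrib, ← u_sum, w_eq, prod_pow_eq_pow_sum]
    congr 2
    have h2 := p.parts_sum
    rw [Finset.sum_multiset_count] at h2
    simp only [smul_eq_mul] at h2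
    refine Eq.trans ?_ h2
    apply sum_congr rfl
    intro i _
    ring
  · unfold IsOddDistinct at h
    push Not at h
    obtain ⟨i, hi, ho, hc⟩ := h
    apply prod_eq_zero (Multiset.mem_toFinset.mpr hi)
    unfold wt
    rw [if_pos ho, if_neg (by omega)]

/-- generating function -/
noncomputable def G : E⟦X⟧ := Nat.Partition.genFun wt

lemma snd_coeff_G (m : ℕ) : TrivSqZeroExt.snd (coeff m G) = (-1) ^ m * ((S m : ℤ) : K) := by
  unfold G
  rw [Nat.Partition.coeff_genFun]
  simp only [prod_wt]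
  rw [← sum_filter, TrivSqZeroExt.snd_sum]
  unfold S
  push_cast
  rw [mul_sum]
  apply sum_congr rfl
  intro p _
  have h : ((-1 : E) ^ m) = TrivSqZeroExt.inl ((-1 : K) ^ m) := by
    rw [← TrivSqZeroExt.inl_pow]
    congr 1
  rw [h]
  simp [u]

lemma hasProd_G : HasProd (fun i ↦ 1 + ∑' j, wt (i + 1) (j + 1) • (X : E⟦X⟧) ^ ((i + 1) * (j + 1))) G :=
  Nat.Partition.hasProd_genFun wt

lemma factor_odd (i : ℕ) (h : Odd (i + 1)) :
    1 + ∑' j, wt (i + 1) (j + 1) • (X : E⟦X⟧) ^ ((i + 1) * (j + 1)) = 1 - C (u ((i + 1 : ℕ) : ℤ)) * X ^ (i + 1) := by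
  rw [tsum_eq_single 0]
  · unfold wt
    rw [if_pos h, if_pos (by norm_num), smul_eq_C_mul]
    simp
    ring
  · intro j hj
    unfold wt
    rw [if_pos h, if_neg (by omega), zero_smul]

lemma factor_even (i : ℕ) (h : ¬ Odd (i + 1)) :
    (1 + ∑' j, wt (i + 1) (j + 1) • (X : E⟦X⟧) ^ ((i + 1) * (j + 1))) *
      (1 - C (u (-((i + 1 : ℕ) : ℤ))) * X ^ (i + 1)) = 1 := by
  set g : E⟦X⟧ := C (u (-((i + 1 : ℕ) : ℤ))) * X ^ (i + 1) with hg
  have h0 : constantCoeff g = 0 := by simp [hg]
  have h1 : ∀ j : ℕ, wt (i + 1) (j + 1) • (X : E⟦X⟧) ^ ((i + 1) * (j + 1)) = g ^ (j + 1) := by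
    intro j
    unfold wt
    rw [if_neg h, smul_eq_C_mul, hg, mul_pow, ← map_pow, u_pow, ← pow_mul]
    congr 3
    push_cast
    ring
  simp_rw [h1]
  have hs : Summable (fun j : ℕ => g ^ j) :=
    PowerSeries.WithPiTopology.summable_pow_of_constantCoeff_eq_zero h0
  have h2 : 1 + ∑' j : ℕ, g ^ (j + 1) = ∑' j : ℕ, g ^ j := by
    rw [hs.tsum_eq_zero_add]
    simp
  rw [h2]
  exact PowerSeries.WithPiTopology.tsum_pow_mul_one_sub_of_constantCoeff_eq_zero h0

lemma continuous_rescale (a : E) : Continuous (fun f : E⟦X⟧ => rescale a f) := by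
  apply continuous_of_coeff
  intro d
  simp only [coeff_rescale]
  exact (PowerSeries.WithPiTopology.continuous_coeff E d).const_mul _

lemma hasProd_E : HasProd (fun i : ℕ ↦ (1 : E⟦X⟧) - C (u ((i + 1 : ℕ) : ℤ)) * X ^ (i + 1))
    (rescale (u 1) (pentagonalSeries E)) := by
  have h := (PowerSeries.WithPiTopology.hasProd_one_sub_X_pow E).map (rescale (u 1))
    (continuous_rescale (u 1))
  convert h using 1
  funext i
  simp only [Function.comp, map_sub, map_one, map_pow, rescale_X, mul_pow]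
  rw [← map_pow, u_pow, mul_one]

lemma hasProd_h : HasProd (fun i : ℕ ↦ if Odd (i + 1) then (1 : E⟦X⟧) else 1 - X ^ (i + 1))
    (eta E 2 two_ne_zero) := by
  have h := hasProd_eta E 2 two_ne_zero
  have hinj : Function.Injective (fun n : ℕ => 2 * n + 1) := by
    intro a b hab
    simpa using hab
  rw [← hinj.hasProd_iff]
  · convert h using 1
    funext n
    simp only [Function.comp]
    rw [if_neg, ← pow_mul]
    · congr 2
    · rw [Nat.not_odd_iff_even]
      exact ⟨n + 1, by ring⟩
  · intro i hi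
    rw [if_pos]
    by_contra hcon
    rw [Nat.not_odd_iff_even] at hcon
    obtain ⟨r, hr⟩ := hcon
    apply hi
    refine ⟨r - 1, ?_⟩
    show 2 * (r - 1) + 1 = i
    omega

theorem G_identity : G * (eta E 2 two_ne_zero) ^ 2 = rescale (u 1) (pentagonalSeries E) := by
  have h1 := (hasProd_G.mul hasProd_h).mul hasProd_h
  have h2 := hasProd_E
  have h3 : ∀ i : ℕ, (1 + ∑' j, wt (i + 1) (j + 1) • (X : E⟦X⟧) ^ ((i + 1) * (j + 1))) *
      (if Odd (i + 1) then (1 : E⟦X⟧) else 1 - X ^ (i + 1)) * (if Odd (i + 1) then (1 : E⟦X⟧) else 1 - X ^ (i + 1))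
      = (1 : E⟦X⟧) - C (u ((i + 1 : ℕ) : ℤ)) * X ^ (i + 1) := by
    intro i
    split_ifs with h
    · rw [factor_odd i h]; ring
    · have h4 := factor_even i h
      have h5 : (1 - (X : E⟦X⟧) ^ (i + 1)) * (1 - X ^ (i + 1)) =
          (1 - C (u (-((i + 1 : ℕ) : ℤ))) * X ^ (i + 1)) * (1 - C (u ((i + 1 : ℕ) : ℤ)) * X ^ (i + 1)) := by
        have h6 : C (u (-((i + 1 : ℕ) : ℤ))) * C (u ((i + 1 : ℕ) : ℤ)) = (1 : E⟦X⟧) := by
          rw [← map_mul, ← u_add]
          simp [u_zero]
        have h7 : C (u (-((i + 1 : ℕ) : ℤ))) + C (u ((i + 1 : ℕ) : ℤ)) = (1 + 1 : E⟦X⟧) := by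
          rw [← map_add]
          have : u (-((i + 1 : ℕ) : ℤ)) + u ((i + 1 : ℕ) : ℤ) = 1 + 1 := by
            unfold u
            ext
            · simp
            · simp
          rw [this, map_add, map_one]
        linear_combination (X : E⟦X⟧) ^ (i + 1) * h7 - (X : E⟦X⟧) ^ (i + 1) * X ^ (i + 1) * h6
      rw [mul_assoc, h5, ← mul_assoc, h4, one_mul]
  have h4 := h1.unique (by
    convert h2 using 1
    funext i
    exact h3 i)
  rw [← h4]
  ring

end Pool.Agent.Results.MP_ec0d67_nt.SignedPartSums
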