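import Mathlib
import Pool.Agent.H13.SignedGen

open Finset PowerSeries Filter Topology
open scoped PowerSeries.WithPiTopology

namespace Pool.Agent.Results.MP_ec0d67_nt.SignedPartSums

open Pool.Agent.H13

instance fact_prime_seven : Fact (Nat.Prime 7) := ⟨by norm_num⟩

/-- the series `∑ (-1)^m S(m) X^m` mod 7 -/
noncomputable def Gs : K⟦X⟧ := PowerSeries.mk fun m => (-1) ^ m * ((S m : ℤ) : K)

/-- `X d/dX` -/
noncomputable def Dq (f : K⟦X⟧) : K⟦X⟧ := X * derivative K f

lemma coeff_Dq (f : K⟦X⟧) (n : ℕ) : coeff n (Dq f) = n * coeff n f := by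
  unfold Dq
  rcases n with _ | n
  · simp
  · rw [mul_comm, coeff_succ_mul_X, coeff_derivative]
    push_cast
    ring

lemma map_pent : pentagonalSeries E = map (TrivSqZeroExt.inlHom K K) (pentagonalSeries K) := by
  ext1 n
  rw [coeff_map]
  by_cases h : n ∈ Set.range pentagonal
  · obtain ⟨k, rfl⟩ := h
    rw [coeff_pentagonalSeries_pentagonal, coeff_pentagonalSeries_pentagonal]
    simp
    rw [← TrivSqZeroExt.inl_pow]
    congr 1
  · rw [coeff_pentagonalSeries_eq_zero E h, coeff_pentagonalSeries_eq_zero K h, map_zero]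

lemma Gs_identity : Gs * (eta K 2 two_ne_zero) ^ 2 = Dq (eta K 1 one_ne_zero) := by
  have h := G_identity
  have h1 : eta E 2 two_ne_zero = map (TrivSqZeroExt.inlHom K K) (eta K 2 two_ne_zero) := by
    unfold eta
    rw [map_pent, map_expand]
  rw [h1, ← map_pow] at h
  ext n
  have h2 := congrArg (fun f => TrivSqZeroExt.snd (coeff n f)) h
  simp only [coeff_mul, TrivSqZeroExt.snd_sum, coeff_map, TrivSqZeroExt.snd_mul, coeff_rescale] at h2
  rw [coeff_mul]
  have h3 : ∀ x ∈ antidiagonal n, coeff x.1 Gs * coeff x.2 (eta K 2 two_ne_zero ^ 2) =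
      TrivSqZeroExt.fst (coeff x.1 G) • TrivSqZeroExt.snd ((TrivSqZeroExt.inlHom K K) (coeff x.2 (eta K 2 two_ne_zero ^ 2))) +
      MulOpposite.op (TrivSqZeroExt.fst ((TrivSqZeroExt.inlHom K K) (coeff x.2 (eta K 2 two_ne_zero ^ 2)))) • TrivSqZeroExt.snd (coeff x.1 G) := by
    intro x _
    rw [snd_coeff_G]
    simp [Gs]
  rw [sum_congr rfl h3, h2, coeff_Dq, map_pent, coeff_map]
  have h4 : eta K 1 one_ne_zero = pentagonalSeries K := by
    unfold eta; simp
  rw [h4, u_pow]
  simp [u]

lemma two_ne : (2 : K⟦X⟧) ≠ 0 := by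
  have h : (C (2 : K)) ≠ (0 : K⟦X⟧) := by
    rw [Ne, map_eq_zero_iff _ C_injective]
    decide
  have h2 : C (2 : K) = (2 : K⟦X⟧) := map_ofNat (C : K →+* K⟦X⟧) 2
  rwa [h2] at h

/-- `φ(q)` -/
noncomputable def phi : K⟦X⟧ := ∑' m : ℤ, fam K (fun _ => 1) eSq m

/-- `∑ (-1)^j (3j+1) q^(3j²+2j)` -/
noncomputable def YY : K⟦X⟧ := ∑' j : ℤ, fam K (fun j => sg j * (3 * j + 1)) eB j

lemma hasSum_phi : HasSum (fam K (fun _ => 1) eSq) phi := (summable_fam (R := K) _ _ pSq).hasSum
lemma hasSum_YY : HasSum (fam K (fun j => sg j * (3 * j + 1)) eB) YY :=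
  (summable_fam (R := K) _ _ pB).hasSum

lemma eta4_eq : eta K 4 four_ne_zero = expand 4 four_ne_zero (eta K 1 one_ne_zero) := by
  unfold eta; simp

lemma hasSum_f4 : HasSum (fam K sg eC') (eta K 4 four_ne_zero) := by
  have h := hasSum_eta K 4 four_ne_zero
  convert h using 1
  funext k
  unfold fam sg
  rw [← pow_mul]
  congr 2
  have h1 := two_mul_natCast_pentagonal k
  have h2 : (eC' k : ℤ) = 4 * (pentagonal k : ℤ) := by
    rw [cC']
    linear_combination (-2 : ℤ) * h1
  exact_mod_cast h2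

lemma hasSum_J2 : HasSum (fam K (fun n => sg n * (2 * n + 1)) eA) (2 * (eta K 4 four_ne_zero) ^ 3) := by
  have h := (hasSum_jacobi K).map (expand 4 four_ne_zero) (continuous_expand 4 four_ne_zero)
  rw [map_pow, ← eta4_eq] at h
  have h1 : (2 : K⟦X⟧) * (eta K 4 four_ne_zero) ^ 3 = (eta K 4 four_ne_zero) ^ 3 + (eta K 4 four_ne_zero) ^ 3 := by
    ring
  rw [h1]
  have sgn : ∀ n : ℕ, sg (n : ℤ) = (-1) ^ n := by
    intro n
    unfold sg
    rw [Int.negOnePow_def]
    simp
  apply HasSum.of_nat_of_neg_add_one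
  · convert h using 1
    funext n
    unfold fam
    simp only [Function.comp, map_mul, map_pow, map_neg, map_one, map_add, map_natCast, expand_X, sgn]
    have h8 : expand 4 four_ne_zero (2 : K⟦X⟧) = 2 := map_ofNat (expand 4 four_ne_zero) 2
    rw [h8, ← pow_mul]
    push_cast
    congr 2
    have h2 := two_mul_tri ((n : ℤ) + 1)
    have h3 : (eA n : ℤ) = 4 * (tri ((n : ℤ) + 1) : ℤ) := by
      rw [cA]
      linear_combination (-2 : ℤ) * h2
    exact_mod_cast h3
  · convert h using 1
    funext n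
    unfold fam
    simp only [Function.comp, map_mul, map_pow, map_neg, map_one, map_add, map_natCast, expand_X]
    have h8 : expand 4 four_ne_zero (2 : K⟦X⟧) = 2 := map_ofNat (expand 4 four_ne_zero) 2
    have h9 : sg (-((n : ℤ) + 1)) = -(-1) ^ n := by
      rw [sg_neg, sg_add, sg_one, sgn]
      ring
    rw [h8, ← pow_mul, h9]
    have h2 := two_mul_tri ((n : ℤ) + 1)
    have h3 : (eA (-((n : ℤ) + 1)) : ℤ) = 4 * (tri ((n : ℤ) + 1) : ℤ) := by
      rw [cA]
      linear_combination (-2 : ℤ) * h2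
    have h4 : eA (-((n : ℤ) + 1)) = 4 * tri ((n : ℤ) + 1) := by exact_mod_cast h3
    rw [h4]
    push_cast
    ring

lemma constantCoeff_eta (e : ℕ) (he : e ≠ 0) : constantCoeff (eta K e he) = 1 := by
  unfold eta
  rw [constantCoeff_expand]
  have h := coeff_pentagonalSeries_pentagonal K 0
  have h0 : pentagonal 0 = 0 := by rfl
  rw [h0, coeff_zero_eq_constantCoeff] at h
  rw [h]
  simp

lemma eta_ne (e : ℕ) (he : e ≠ 0) : eta K e he ≠ 0 := by
  intro h
  have := constantCoeff_eta e he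
  rw [h, map_zero] at this
  exact zero_ne_one this

lemma YY_eq : phi * (eta K 4 four_ne_zero) ^ 2 = YY := by
  have h := double_sum K two_ne phi (2 * (eta K 4 four_ne_zero) ^ 3) (eta K 4 four_ne_zero) YY
    hasSum_phi hasSum_J2 hasSum_f4 hasSum_YY
  have h1 : (2 * eta K 4 four_ne_zero) * (phi * (eta K 4 four_ne_zero) ^ 2) = (2 * eta K 4 four_ne_zero) * YY := by
    linear_combination h
  exact mul_left_cancel₀ (mul_ne_zero two_ne (eta_ne 4 four_ne_zero)) h1

lemma phi_id : phi * eta K 1 one_ne_zero ^ 2 * eta K 4 four_ne_zero ^ 2 = eta K 2 two_ne_zero ^ 5 := by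
  apply phi_identity
  have := hasSum_phi
  convert this using 1
  funext m
  unfold fam eSq
  simp

/-- key product formula -/
lemma key : 3 * Gs * (eta K 2 two_ne_zero) ^ 7 = Dq (eta K 1 one_ne_zero ^ 3) * YY := by
  have h1 := Gs_identity
  have h2 := phi_id
  have h3 := YY_eq
  have h4 : Dq (eta K 1 one_ne_zero ^ 3) = 3 * eta K 1 one_ne_zero ^ 2 * Dq (eta K 1 one_ne_zero) := by
    unfold Dq
    rw [derivative_pow]
    push_cast
    ring
  rw [h4, ← h3, ← h1]
  calc 3 * Gs * (eta K 2 two_ne_zero) ^ 7 = 3 * Gs * (eta K 2 two_ne_zero) ^ 2 * (eta K 2 two_ne_zero) ^ 5 := by ring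
    _ = _ := by rw [← h2]; ring

lemma coeff_jac (i : ℕ) (h : i % 7 ≠ 1 ∧ i % 7 ≠ 3) : (i : K) * coeff i (eta K 1 one_ne_zero ^ 3) = 0 := by
  have h1 := (PowerSeries.WithPiTopology.hasSum_iff_hasSum_coeff K).mp (hasSum_jacobi K) i
  have h2 := h1.mul_left (i : K)
  have h3 : (fun k : ℕ => (i : K) * coeff i (((-1) ^ k * (2 * (k : K⟦X⟧) + 1)) * X ^ (tri ((k : ℤ) + 1)))) = fun _ => 0 := by
    funext k
    rw [coeff_mul_X_pow']
    split_ifs with hle
    · have e1 : ((-1 : K⟦X⟧) ^ k * (2 * (k : K⟦X⟧) + 1)) = C ((-1) ^ k * (2 * (k : K) + 1)) := by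
        have h2' : C (2 : K) = (2 : K⟦X⟧) := map_ofNat (C : K →+* K⟦X⟧) 2
        rw [map_mul, map_pow, map_neg, map_one, map_add, map_mul, map_natCast, map_one, h2']
      rw [e1, coeff_C]
      split_ifs with heq
      · have h5 : tri ((k : ℤ) + 1) = i := by omega
        have h6 := two_mul_tri ((k : ℤ) + 1)
        rw [h5] at h6
        have h7 : 2 * i = (k + 1) * k := by
          have : (2 * (i : ℤ)) = ((k : ℤ) + 1) * k := by rw [h6]; ring
          exact_mod_cast this
        have h8 : (7 : ℤ) ∣ (i : ℤ) * (2 * k + 1) := by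
          have h9 : 7 ∣ i * (2 * k + 1) := by
            have hk : k % 7 < 7 := Nat.mod_lt _ (by norm_num)
            obtain ⟨a, b, ha, hb⟩ : ∃ a b, k = 7 * a + b ∧ b < 7 := ⟨k / 7, k % 7, by omega, hk⟩
            subst ha
            interval_cases b
            · have : 7 ∣ i := by
                have : 2 * i = 7 * (a * (7 * a + 1)) := by rw [h7]; ring
                omega
              exact Dvd.dvd.mul_right this _
            · exfalso
              have : 2 * i = 7 * (a * (7 * a + 3)) + 2 := by rw [h7]; ring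
              omega
            · exfalso
              have : 2 * i = 7 * (a * (7 * a + 5)) + 6 := by rw [h7]; ring
              omega
            · exact ⟨i * (2 * a + 1), by ring⟩
            · exfalso
              have : 2 * i = 7 * (a * (7 * a + 9) + 2) + 6 := by rw [h7]; ring
              omega
            · exfalso
              have : 2 * i = 7 * (a * (7 * a + 11) + 4) + 2 := by rw [h7]; ring
              omega
            · have : 7 ∣ i := by
                have : 2 * i = 7 * (a * (7 * a + 13) + 6) := by rw [h7]; ring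
                omega
              exact Dvd.dvd.mul_right this _
          exact_mod_cast h9
        have h9 : (((i : ℤ) * (2 * k + 1) : ℤ) : K) = 0 := by
          rw [ZMod.intCast_zmod_eq_zero_iff_dvd]
          exact_mod_cast h8
        push_cast at h9
        linear_combination ((-1 : K) ^ k) * h9
      · simp
    · simp
  rw [h3] at h2
  exact (h2.unique hasSum_zero)

lemma coeff_YY (i : ℕ) (h : i % 7 ≠ 0 ∧ i % 7 ≠ 1 ∧ i % 7 ≠ 5) : coeff i YY = 0 := by
  have h1 := (PowerSeries.WithPiTopology.hasSum_iff_hasSum_coeff K).mp hasSum_YY i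
  have h3 : (fun k : ℤ => coeff i (fam K (fun j => sg j * (3 * j + 1)) eB k)) = fun _ => 0 := by
    funext k
    unfold fam
    rw [coeff_mul_X_pow']
    split_ifs with hle
    · have e1 : (((sg k * (3 * k + 1) : ℤ)) : K⟦X⟧) = C (((sg k * (3 * k + 1) : ℤ)) : K) :=
        (map_intCast (C : K →+* K⟦X⟧) _).symm
      rw [e1, coeff_C]
      split_ifs with heq
      · have h5 : eB k = i := by omega
        have h6 := cB k
        rw [h5] at h6
        rw [ZMod.intCast_zmod_eq_zero_iff_dvd]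
        apply Dvd.dvd.mul_left
        obtain ⟨a, b, ha, hb0, hb⟩ : ∃ a b : ℤ, k = 7 * a + b ∧ 0 ≤ b ∧ b < 7 :=
          ⟨k / 7, k % 7, by omega, by omega, by omega⟩
        subst ha
        interval_cases b
        · exfalso
          have : (i : ℤ) = 7 * (a * (21 * a + 2)) := by rw [h6]; ring
          omega
        · exfalso
          have : (i : ℤ) = 7 * (a * (21 * a + 8)) + 5 := by rw [h6]; ring
          omega
        · exact ⟨3 * a + 1, by push_cast; ring⟩
        · exfalso
          have : (i : ℤ) = 7 * (a * (21 * a + 20) + 4) + 5 := by rw [h6]; ring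
          omega
        · exfalso
          have : (i : ℤ) = 7 * (a * (21 * a + 26) + 8) := by rw [h6]; ring
          omega
        · exfalso
          have : (i : ℤ) = 7 * (a * (21 * a + 32) + 12) + 1 := by rw [h6]; ring
          omega
        · exfalso
          have : (i : ℤ) = 7 * (a * (21 * a + 38) + 17) + 1 := by rw [h6]; ring
          omega
      · rfl
    · rfl
  rw [h3] at h1
  exact (h1.unique hasSum_zero)

lemma coeff_B (N : ℕ) (h : N % 7 = 0 ∨ N % 7 = 5) :
    coeff N (Dq (eta K 1 one_ne_zero ^ 3) * YY) = 0 := by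
  rw [coeff_mul]
  apply sum_eq_zero
  rintro ⟨i, j⟩ hij
  have hij' : i + j = N := mem_antidiagonal.mp hij
  simp only
  rw [coeff_Dq]
  by_cases h1 : i % 7 ≠ 1 ∧ i % 7 ≠ 3
  · rw [coeff_jac i h1, zero_mul]
  · by_cases h2 : j % 7 ≠ 0 ∧ j % 7 ≠ 1 ∧ j % 7 ≠ 5
    · rw [coeff_YY j h2, mul_zero]
    · exfalso
      omega

lemma coeff_pow_seven (f : K⟦X⟧) (n : ℕ) (hn : n % 7 ≠ 0) : coeff n (f ^ 7) = 0 := by
  rcases n with _ | n
  · omega
  have h1 : derivative K (f ^ 7) = 0 := by
    rw [derivative_pow]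
    have : ((7 : ℕ) : K⟦X⟧) = 0 := by
      have h : (C ((7 : ℕ) : K)) = (0 : K⟦X⟧) := by
        have : ((7 : ℕ) : K) = 0 := by decide
        rw [this, map_zero]
      rwa [map_natCast] at h
    rw [this]
    ring
  have h2 := congrArg (coeff n) h1
  rw [coeff_derivative, map_zero] at h2
  have h3 : ((n : K) + 1) ≠ 0 := by
    intro h4
    apply hn
    have h5 : ((n + 1 : ℕ) : K) = 0 := by push_cast; exact h4
    rw [ZMod.natCast_eq_zero_iff] at h5
    omega
  exact (mul_eq_zero.mp h2).resolve_right h3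

lemma coeff_Gs (N : ℕ) (h : N % 7 = 0 ∨ N % 7 = 5) : coeff N Gs = 0 := by
  have hk := key
  have hinv : eta K 2 two_ne_zero * (eta K 2 two_ne_zero)⁻¹ = 1 := by
    apply PowerSeries.mul_inv_cancel
    rw [constantCoeff_eta]
    exact one_ne_zero
  have h1 : 3 * Gs = (Dq (eta K 1 one_ne_zero ^ 3) * YY) * ((eta K 2 two_ne_zero)⁻¹) ^ 7 := by
    rw [← hk, mul_assoc, ← mul_pow, hinv]
    ring
  have h2 : coeff N (3 * Gs) = 0 := by
    rw [h1, coeff_mul]
    apply sum_eq_zero
    rintro ⟨i, j⟩ hij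
    have hij' : i + j = N := mem_antidiagonal.mp hij
    simp only
    by_cases hj : j % 7 = 0
    · rw [coeff_B i (by omega), zero_mul]
    · rw [coeff_pow_seven _ j hj, mul_zero]
  have h3 : (3 : K⟦X⟧) * Gs = C (3 : K) * Gs := by
    have h2' : C (3 : K) = (3 : K⟦X⟧) := map_ofNat (C : K →+* K⟦X⟧) 3
    rw [h2']
  rw [h3, coeff_C_mul] at h2
  exact (mul_eq_zero.mp h2).resolve_left (by decide)

theorem main (N : ℕ) (h : N % 7 = 0 ∨ N % 7 = 5) : (7 : ℤ) ∣ S N := by
  have h1 := coeff_Gs N h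
  unfold Gs at h1
  rw [coeff_mk] at h1
  have h2 : ((-1 : K) ^ N) ≠ 0 := pow_ne_zero _ (by decide)
  have h3 := (mul_eq_zero.mp h1).resolve_left h2
  rw [ZMod.intCast_zmod_eq_zero_iff_dvd] at h3
  exact_mod_cast h3

end Pool.Agent.Results.MP_ec0d67_nt.SignedPartSums
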