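import Mathlib

namespace Pool.Agent.Results.MP_14414a_nt.AlternatingIntegrality

/-- The multinomial coefficient `M_k = (4k)! / (k!)^4`. -/
def multinom (k : ℕ) : ℚ := ((4 * k).factorial : ℚ) / (k.factorial : ℚ) ^ 4

/-- The rational number `a_n` of the problem:
`a_n = 1 / (2 n (2 n + 1) C(2n, n)) * ∑_{k=0}^{n-1} (28 k + 3) M_k (-3 * 2^12)^(n-1-k)`. -/
def a (n : ℕ) : ℚ :=
  1 / (2 * n * (2 * n + 1) * (Nat.choose (2 * n) n)) *
    ∑ k ∈ Finset.range n, (28 * (k : ℚ) + 3) * multinom k * (-3 * 2 ^ 12) ^ (n - 1 - k)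

end Pool.Agent.Results.MP_14414a_nt.AlternatingIntegrality
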