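import Mathlib
import Pool.Agent.H13.Sun28Defs

open Finset

namespace Pool.Agent.Results.MP_14414a_nt.AlternatingIntegrality

/-- rising factorial of `a` with `m` factors -/
def rise (a : ℚ) (m : ℕ) : ℚ := ∏ i ∈ range m, (a + i)

lemma rise_zero (a : ℚ) : rise a 0 = 1 := by simp [rise]

lemma rise_succ (a : ℚ) (m : ℕ) : rise a (m + 1) = rise a m * (a + m) := by
  simp [rise, prod_range_succ]

lemma rise_succ' (a : ℚ) (m : ℕ) : rise a (m + 1) = a * rise (a + 1) m := by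
  unfold rise
  rw [prod_range_succ', mul_comm]
  congr 1
  · simp
  · apply prod_congr rfl
    intro i _
    push_cast
    ring

def cb (n : ℕ) : ℚ := (Nat.centralBinom n : ℚ)

lemma cb_zero : cb 0 = 1 := by simp [cb]

lemma cb_succ (n : ℕ) : ((n : ℚ) + 1) * cb (n + 1) = 2 * (2 * n + 1) * cb n := by
  unfold cb
  exact_mod_cast Nat.succ_mul_centralBinom_succ n

lemma cb_succ' (n : ℕ) : cb (n + 1) = 2 * (2 * n + 1) / (n + 1) * cb n := by
  have h := cb_succ n
  have h1 : (n : ℚ) + 1 ≠ 0 := by positivity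
  field_simp
  linarith

/-- prefactor -/
def pre (N x : ℕ) : ℚ := (3 / 16 : ℚ) ^ x * cb x / (27 ^ N * (N.factorial : ℚ) ^ 2)

/-- summand of the closed form -/
def C (N x : ℕ) : ℚ := 18 * (N : ℚ) ^ 2 * pre N x * rise (N - x + 1 / 2) (2 * N - 1)

/-- connecting terms -/
def b (N x : ℕ) : ℚ := -(4 / 3) * x * (2 * x - 1) * pre N x * rise (N - x + 3 / 2) (2 * N - 1)

lemma pre_succ_N (N x : ℕ) : pre (N + 1) x * (27 * ((N : ℚ) + 1) ^ 2) = pre N x := by
  unfold pre
  rw [Nat.factorial_succ]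
  have h1 : (N : ℚ) + 1 ≠ 0 := by positivity
  have h2 : (N.factorial : ℚ) ≠ 0 := by exact_mod_cast Nat.factorial_ne_zero N
  push_cast
  field_simp
  ring

lemma pre_succ_x (N x : ℕ) : pre N (x + 1) * (8 * ((x : ℚ) + 1)) = 3 * (2 * x + 1) * pre N x := by
  unfold pre
  have h := cb_succ x
  have h2 : (N.factorial : ℚ) ≠ 0 := by exact_mod_cast Nat.factorial_ne_zero N
  rw [pow_succ]
  field_simp
  linear_combination 8 * h

lemma step (M x : ℕ) :
    C (M + 2) x - C (M + 1) x = b (M + 1) (x + 1) - b (M + 1) x := by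
  set Q : ℚ := rise ((M : ℚ) + 1 - x + 3 / 2) (2 * M) with hQ
  have e1 : rise (((M + 1 : ℕ) : ℚ) - x + 1 / 2) (2 * (M + 1) - 1) = ((M : ℚ) + 1 - x + 1 / 2) * Q := by
    have : 2 * (M + 1) - 1 = 2 * M + 1 := by omega
    rw [this, rise_succ', hQ]
    congr 1
    · push_cast; ring
    · congr 1
      push_cast; ring
  have e2 : rise (((M + 2 : ℕ) : ℚ) - x + 1 / 2) (2 * (M + 2) - 1) =
      Q * (3 * M + 1 - x + 3 / 2) * (3 * M + 2 - x + 3 / 2) * (3 * M + 3 - x + 3 / 2) := by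
    have : 2 * (M + 2) - 1 = 2 * M + 1 + 1 + 1 := by omega
    rw [this, rise_succ, rise_succ, rise_succ, hQ]
    have h3 : (((M + 2 : ℕ) : ℚ) - x + 1 / 2) = (M : ℚ) + 1 - x + 3 / 2 := by push_cast; ring
    rw [h3]
    push_cast
    ring
  have e3 : rise (((M + 1 : ℕ) : ℚ) - x + 3 / 2) (2 * (M + 1) - 1) =
      Q * (3 * M + 1 - x + 3 / 2) := by
    have : 2 * (M + 1) - 1 = 2 * M + 1 := by omega
    rw [this, rise_succ, hQ]
    push_cast
    ring
  have e4 : rise (((M + 1 : ℕ) : ℚ) - (x + 1 : ℕ) + 3 / 2) (2 * (M + 1) - 1) =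
      ((M : ℚ) + 1 - x + 1 / 2) * Q := by
    have : 2 * (M + 1) - 1 = 2 * M + 1 := by omega
    rw [this, rise_succ', hQ]
    congr 1
    · push_cast; ring
    · congr 1
      push_cast; ring
  unfold C b
  rw [e1, e2, e3, e4]
  have p1 := pre_succ_N (M + 1) x
  have p2 := pre_succ_x (M + 1) x
  have p1' : pre (M + 1 + 1) x = pre (M + 1) x / (27 * ((M : ℚ) + 2) ^ 2) := by
    rw [← p1]
    have : (M : ℚ) + 2 ≠ 0 := by positivity
    push_cast
    field_simp
    ring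
  have p2' : pre (M + 1) (x + 1) = 3 * (2 * x + 1) * pre (M + 1) x / (8 * ((x : ℚ) + 1)) := by
    have : (x : ℚ) + 1 ≠ 0 := by positivity
    field_simp
    linarith
  rw [show M + 2 = M + 1 + 1 from rfl, p1', p2']
  have h1 : (M : ℚ) + 2 ≠ 0 := by positivity
  have h2 : (x : ℚ) + 1 ≠ 0 := by positivity
  push_cast
  field_simp
  ring


lemma rise_neg_half (M : ℕ) :
    rise (-(M : ℚ) + 1 / 2) (2 * M) = (-1) ^ M * (rise (1 / 2) M) ^ 2 := by
  induction M with
  | zero => simp [rise]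
  | succ M ih =>
    have : 2 * (M + 1) = (2 * M + 1) + 1 := by ring
    rw [this, rise_succ, rise_succ']
    have h1 : (-((M + 1 : ℕ) : ℚ) + 1 / 2 + 1) = -(M : ℚ) + 1 / 2 := by push_cast; ring
    rw [h1, ih, rise_succ]
    push_cast
    ring

lemma rise_half (M : ℕ) : rise (1 / 2) M = (M.factorial : ℚ) * cb M / 4 ^ M := by
  induction M with
  | zero => simp [rise, cb]
  | succ M ih =>
    rw [rise_succ, ih, cb_succ', Nat.factorial_succ]
    have h1 : (M : ℚ) + 1 ≠ 0 := by positivity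
    push_cast
    field_simp
    ring

lemma multinom_eq (k : ℕ) : multinom k = cb (2 * k) * cb k ^ 2 := by
  unfold multinom cb
  rw [Nat.centralBinom_eq_two_mul_choose, Nat.centralBinom_eq_two_mul_choose,
    Nat.cast_choose ℚ (by omega : 2 * k ≤ 2 * (2 * k)), Nat.cast_choose ℚ (by omega : k ≤ 2 * k)]
  have h0 : 2 * (2 * k) - 2 * k = 2 * k := by omega
  have h1 : 2 * k - k = k := by omega
  rw [h0, h1, show 2 * (2 * k) = 4 * k by ring]
  have h2 : (k.factorial : ℚ) ≠ 0 := by exact_mod_cast Nat.factorial_ne_zero k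
  have h3 : ((2 * k).factorial : ℚ) ≠ 0 := by exact_mod_cast Nat.factorial_ne_zero (2 * k)
  field_simp

/-- the terminal contribution equals the series term -/
lemma terminal (M : ℕ) :
    C (M + 2) (2 * (M + 1)) + C (M + 2) (2 * (M + 1) + 1) + b (M + 1) (2 * (M + 1)) =
      3 / 8 * (28 * ((M : ℚ) + 1) + 3) * multinom (M + 1) / (-12288) ^ (M + 1) := by
  set Q : ℚ := rise (-(M : ℚ) + 1 / 2) (2 * M) with hQ
  have e1 : rise (((M + 2 : ℕ) : ℚ) - (2 * (M + 1) : ℕ) + 1 / 2) (2 * (M + 2) - 1) =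
      Q * (M + 1 / 2) * (M + 3 / 2) * (M + 5 / 2) := by
    have : 2 * (M + 2) - 1 = 2 * M + 1 + 1 + 1 := by omega
    rw [this, rise_succ, rise_succ, rise_succ, hQ]
    have h3 : (((M + 2 : ℕ) : ℚ) - (2 * (M + 1) : ℕ) + 1 / 2) = -(M : ℚ) + 1 / 2 := by
      push_cast; ring
    rw [h3]
    push_cast
    ring
  have e2 : rise (((M + 2 : ℕ) : ℚ) - (2 * (M + 1) + 1 : ℕ) + 1 / 2) (2 * (M + 2) - 1) =
      (-(M : ℚ) - 1 / 2) * Q * (M + 1 / 2) * (M + 3 / 2) := by
    have : 2 * (M + 2) - 1 = 2 * M + 1 + 1 + 1 := by omega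
    rw [this, rise_succ', rise_succ, rise_succ, hQ]
    have h3 : (((M + 2 : ℕ) : ℚ) - (2 * (M + 1) + 1 : ℕ) + 1 / 2 + 1) = -(M : ℚ) + 1 / 2 := by
      push_cast; ring
    rw [h3]
    push_cast
    ring
  have e3 : rise (((M + 1 : ℕ) : ℚ) - (2 * (M + 1) : ℕ) + 3 / 2) (2 * (M + 1) - 1) =
      Q * (M + 1 / 2) := by
    have : 2 * (M + 1) - 1 = 2 * M + 1 := by omega
    rw [this, rise_succ, hQ]
    have h3 : (((M + 1 : ℕ) : ℚ) - (2 * (M + 1) : ℕ) + 3 / 2) = -(M : ℚ) + 1 / 2 := by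
      push_cast; ring
    rw [h3]
    push_cast
    ring
  have p1' : ∀ x, pre (M + 1 + 1) x = pre (M + 1) x / (27 * ((M : ℚ) + 2) ^ 2) := by
    intro x
    rw [← pre_succ_N (M + 1) x]
    have : (M : ℚ) + 2 ≠ 0 := by positivity
    push_cast
    field_simp
    ring
  have p2' : ∀ x : ℕ, pre (M + 1) (x + 1) = 3 * (2 * x + 1) * pre (M + 1) x / (8 * ((x : ℚ) + 1)) := by
    intro x
    have := pre_succ_x (M + 1) x
    have : (x : ℚ) + 1 ≠ 0 := by positivity
    field_simp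
    linarith
  unfold C b
  rw [e1, e2, e3, show M + 2 = M + 1 + 1 from rfl, p1', p1', p2']
  have hpre : pre (M + 1) (2 * (M + 1)) = (9 / 256 : ℚ) ^ (M + 1) * cb (2 * (M + 1)) /
      (27 ^ (M + 1) * ((M + 1).factorial : ℚ) ^ 2) := by
    unfold pre
    rw [pow_mul]
    norm_num
  rw [hpre, hQ, rise_neg_half, rise_half, multinom_eq]
  have hcb : cb (M + 1) = 2 * (2 * M + 1) / (M + 1) * cb M := cb_succ' M
  rw [hcb, Nat.factorial_succ]
  have h1 : (M : ℚ) + 1 ≠ 0 := by positivity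
  have h2 : (M : ℚ) + 2 ≠ 0 := by positivity
  have h3 : (M.factorial : ℚ) ≠ 0 := by exact_mod_cast Nat.factorial_ne_zero M
  have h4 : (2 * ((M : ℚ) + 1) + 1) ≠ 0 := by positivity
  have h9 : ((-12288 : ℚ) ^ (M + 1))⁻¹ =
      (-1) ^ (M + 1) * (9 / 256) ^ (M + 1) / (27 ^ (M + 1) * 16 ^ (M + 1)) := by
    rw [← inv_pow, ← mul_pow, ← mul_pow, ← div_pow]
    norm_num
  have h7 : (16 : ℚ) ^ (M + 1) = (4 ^ M) ^ 2 * 16 := by
    rw [pow_succ, ← pow_mul, mul_comm M 2, pow_mul]; norm_num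
  rw [div_eq_mul_inv _ ((-12288 : ℚ) ^ (M + 1)), h9, h7]
  simp only [pow_succ _ M]
  generalize (9 / 256 : ℚ) ^ M = u
  generalize (-1 : ℚ) ^ M = w
  have h10 : (4 : ℚ) ^ M ≠ 0 := by positivity
  have h11 : (27 : ℚ) ^ M ≠ 0 := by positivity
  generalize (4 : ℚ) ^ M = f at *
  generalize (27 : ℚ) ^ M = t at *
  generalize cb M = c0
  generalize cb (2 * (M + 1)) = c2
  push_cast
  field_simp
  ring

theorem closed_form (M : ℕ) :
    ∑ x ∈ range (2 * (M + 1)), C (M + 1) x =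
      3 / 8 * ∑ n ∈ range (M + 1), (28 * (n : ℚ) + 3) * multinom n / (-12288) ^ n := by
  induction M with
  | zero =>
    simp [sum_range_succ, C, pre, rise, cb, multinom, Nat.centralBinom]
    norm_num [Nat.choose]
  | succ M ih =>
    rw [sum_range_succ _ (M + 1), mul_add (3 / 8 : ℚ), ← ih]
    have h1 : 2 * (M + 1 + 1) = 2 * (M + 1) + 1 + 1 := by ring
    rw [h1, sum_range_succ, sum_range_succ]
    have h2 : ∑ x ∈ range (2 * (M + 1)), C (M + 1 + 1) x =
        ∑ x ∈ range (2 * (M + 1)), C (M + 1) x + b (M + 1) (2 * (M + 1)) := by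
      have h3 : ∑ x ∈ range (2 * (M + 1)), (C (M + 2) x - C (M + 1) x) =
          b (M + 1) (2 * (M + 1)) - b (M + 1) 0 := by
        rw [← sum_range_sub]
        exact sum_congr rfl fun x _ => step M x
      have h4 : b (M + 1) 0 = 0 := by simp [b]
      rw [sum_sub_distrib, h4] at h3
      linarith
    have h5 := terminal M
    rw [h2]
    have h6 : 3 / 8 * ((28 * ((M + 1 : ℕ) : ℚ) + 3) * multinom (M + 1) / (-12288) ^ (M + 1)) =
        3 / 8 * (28 * ((M : ℚ) + 1) + 3) * multinom (M + 1) / (-12288) ^ (M + 1) := by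
      push_cast
      ring
    rw [h6, ← h5]
    ring



lemma ap_dvd (m L : ℕ) (hm : Odd m) (h : m ∣ L.factorial) (a : ℤ) :
    (m : ℤ) ∣ ∏ i ∈ range L, (a + 2 * (i : ℤ)) := by
  obtain ⟨v, hv⟩ := hm
  have : NeZero m := ⟨by omega⟩
  rw [← ZMod.intCast_zmod_eq_zero_iff_dvd]
  set t : ℕ := ((a : ZMod m) * ((v + 1 : ℕ) : ZMod m)).val with ht
  have h1 : (t : ZMod m) = (a : ZMod m) * ((v + 1 : ℕ) : ZMod m) := by
    rw [ht, ZMod.natCast_zmod_val]
  have h2 : (2 : ZMod m) * ((v + 1 : ℕ) : ZMod m) = 1 := by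
    have : ((m : ℕ) : ZMod m) = 0 := ZMod.natCast_self m
    have h3 : (2 : ZMod m) * ((v + 1 : ℕ) : ZMod m) = ((2 * v + 1 : ℕ) : ZMod m) + 1 := by
      push_cast; ring
    rw [h3, ← hv, this, zero_add]
  have h3 : (a : ZMod m) = 2 * (t : ZMod m) := by
    rw [h1]
    calc (a : ZMod m) = a * (2 * ((v + 1 : ℕ) : ZMod m)) := by rw [h2, mul_one]
      _ = _ := by ring
  have h4 : ((∏ i ∈ range L, (a + 2 * (i : ℤ)) : ℤ) : ZMod m) =
      2 ^ L * ((t.ascFactorial L : ℕ) : ZMod m) := by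
    rw [Nat.ascFactorial_eq_prod_range]
    push_cast
    rw [h3]
    have : ∀ i ∈ range L, (2 * (t : ZMod m) + 2 * (i : ZMod m)) = 2 * ((t : ZMod m) + i) := by
      intro i _; ring
    rw [prod_congr rfl this, prod_mul_distrib]
    simp
  rw [h4]
  have h5 : m ∣ t.ascFactorial L := h.trans (Nat.factorial_dvd_ascFactorial t L)
  have h6 : ((t.ascFactorial L : ℕ) : ZMod m) = 0 := by
    rwa [ZMod.natCast_eq_zero_iff]
  rw [h6, mul_zero]

lemma six_cb (x : ℕ) : ∃ s : ℤ, 6 * (Nat.centralBinom x : ℤ) = ((x : ℤ) + 1) * (x + 2) * s := by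
  obtain ⟨c, hc⟩ := Nat.succ_dvd_centralBinom x
  obtain ⟨d, hd⟩ := Nat.succ_dvd_centralBinom (x + 1)
  have h := Nat.succ_mul_centralBinom_succ x
  have hc' : (Nat.centralBinom x : ℤ) = (x + 1) * c := by exact_mod_cast hc
  have hd' : (Nat.centralBinom (x + 1) : ℤ) = (x + 1 + 1) * d := by exact_mod_cast hd
  have h' : ((x : ℤ) + 1) * Nat.centralBinom (x + 1) = 2 * (2 * x + 1) * Nat.centralBinom x := by
    exact_mod_cast h
  refine ⟨4 * c - d, ?_⟩
  rw [hc', hd'] at h'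
  have h1 : ((x : ℤ) + 1) ≠ 0 := by positivity
  have h2 : ((x : ℤ) + 1 + 1) * d = 2 * (2 * x + 1) * c := by
    apply mul_left_cancel₀ h1
    linear_combination h'
  rw [hc']
  linear_combination ((x : ℤ) + 1) * h2

/-- product of `2N-1` consecutive odd numbers, `N = M+1` -/
def R (M x : ℕ) : ℤ := ∏ i ∈ range (2 * M + 1), ((2 * (M : ℤ) + 3 - 2 * x) + 2 * (i : ℤ))

lemma key_dvd (M x e M' : ℕ) (hM' : Odd M') (he : (2 * M + 1).factorial = 2 ^ e * M') :
    ((2 * (M : ℤ) + 3) * ((2 * M + 1).factorial : ℤ)) ∣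
      2 ^ e * (6 * (Nat.centralBinom x : ℤ) * R M x) := by
  have hR : (M' : ℤ) ∣ R M x := by
    apply ap_dvd M' (2 * M + 1) hM'
    rw [he]; exact Dvd.intro_left _ rfl
  obtain ⟨R1, hR1⟩ := hR
  have hodd : Odd ((2 * M + 3) * M') := by
    apply Odd.mul _ hM'
    exact ⟨M + 1, by ring⟩
  have hbig : (((2 * M + 3) * M' : ℕ) : ℤ) ∣
      ∏ i ∈ range (2 * M + 3), ((2 * (M : ℤ) + 1 - 2 * x) + 2 * (i : ℤ)) := by
    apply ap_dvd _ _ hodd
    rw [show 2 * M + 3 = (2 * M + 1) + 1 + 1 from rfl, Nat.factorial_succ (2 * M + 1 + 1), Nat.factorial_succ (2 * M + 1), he]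
    exact ⟨(2 * M + 1 + 1) * 2 ^ e, by ring⟩
  have hprod : ∏ i ∈ range (2 * M + 3), ((2 * (M : ℤ) + 1 - 2 * x) + 2 * (i : ℤ)) =
      (2 * (M : ℤ) + 1 - 2 * x) * R M x * (6 * M + 5 - 2 * x) := by
    rw [show 2 * M + 3 = (2 * M + 1) + 1 + 1 from rfl, prod_range_succ, prod_range_succ']
    unfold R
    have : ∏ k ∈ range (2 * M + 1), (2 * (M : ℤ) + 1 - 2 * x + 2 * ((k + 1 : ℕ) : ℤ)) =
        ∏ i ∈ range (2 * M + 1), ((2 * (M : ℤ) + 3 - 2 * x) + 2 * (i : ℤ)) := by
      apply prod_congr rfl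
      intro i _
      push_cast
      ring
    rw [this]
    push_cast
    ring
  rw [hprod, hR1] at hbig
  have hM'0 : (M' : ℤ) ≠ 0 := by
    obtain ⟨v, hv⟩ := hM'
    rw [hv]; positivity
  have h1 : (2 * (M : ℤ) + 3) ∣ (2 * (M : ℤ) + 1 - 2 * x) * R1 * (6 * M + 5 - 2 * x) := by
    have : (M' : ℤ) * (2 * (M : ℤ) + 3) ∣ M' * ((2 * (M : ℤ) + 1 - 2 * x) * R1 * (6 * M + 5 - 2 * x)) := by
      have e1 : (M' : ℤ) * (2 * (M : ℤ) + 3) = (((2 * M + 3) * M' : ℕ) : ℤ) := by push_cast; ring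
      rw [e1]
      convert hbig using 1
      ring
    exact (mul_dvd_mul_iff_left hM'0).mp this
  have h2 : (2 * (M : ℤ) + 3) ∣ 4 * (((x : ℤ) + 1) * (x + 2) * R1) := by
    have e2 : 4 * (((x : ℤ) + 1) * (x + 2) * R1) =
        (2 * (M : ℤ) + 1 - 2 * x) * R1 * (6 * M + 5 - 2 * x)
        + (2 * (M : ℤ) + 3) * (-(6 * M + 5 - 2 * x) * R1 + 6 * (x + 1) * R1) := by ring
    rw [e2]
    exact dvd_add h1 (Dvd.intro _ rfl)
  have hco : IsCoprime (2 * (M : ℤ) + 3) 4 := by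
    have : IsCoprime (2 * (M : ℤ) + 3) 2 := ⟨1, -(M + 1), by ring⟩
    have h4 : (4 : ℤ) = 2 * 2 := by norm_num
    rw [h4]
    exact this.mul_right this
  have h3 : (2 * (M : ℤ) + 3) ∣ ((x : ℤ) + 1) * (x + 2) * R1 := hco.dvd_of_dvd_mul_left h2
  obtain ⟨s, hs⟩ := six_cb x
  have h4 : (2 * (M : ℤ) + 3) ∣ 6 * (Nat.centralBinom x : ℤ) * R1 := by
    rw [hs]
    have : ((x : ℤ) + 1) * (x + 2) * s * R1 = ((x : ℤ) + 1) * (x + 2) * R1 * s := by ring
    rw [this]
    exact Dvd.dvd.mul_right h3 s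
  obtain ⟨w, hw⟩ := h4
  refine ⟨w, ?_⟩
  rw [he, hR1]
  push_cast
  linear_combination (2 ^ e * (M' : ℤ)) * hw



lemma cbn_ne (n : ℕ) : Nat.centralBinom n ≠ 0 := Nat.centralBinom_ne_zero n

lemma v2_cb_succ (n : ℕ) :
    padicValNat 2 (Nat.centralBinom (n + 1)) ≤ padicValNat 2 (Nat.centralBinom n) + 1 := by
  have h := Nat.succ_mul_centralBinom_succ n
  have h1 : padicValNat 2 ((n + 1) * Nat.centralBinom (n + 1)) =
      padicValNat 2 (2 * (2 * n + 1) * Nat.centralBinom n) := by rw [h]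
  rw [padicValNat.mul (by omega) (cbn_ne _), padicValNat.mul (by positivity) (cbn_ne _),
    padicValNat.mul (by norm_num) (by omega)] at h1
  have h2 : padicValNat 2 (2 * n + 1) = 0 := by
    apply padicValNat.eq_zero_of_not_dvd
    omega
  have h3 : padicValNat 2 2 = 1 := by simp
  omega

lemma v2_cb_le (k r : ℕ) :
    padicValNat 2 (Nat.centralBinom (k + r)) ≤ padicValNat 2 (Nat.centralBinom k) + r := by
  induction r with
  | zero => simp
  | succ r ih =>
    have := v2_cb_succ (k + r)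
    rw [← add_assoc]
    omega

/-- the natural number term -/
def term (n k : ℕ) : ℕ :=
  (28 * k + 3) * (Nat.centralBinom (2 * k) * Nat.centralBinom k ^ 2) * 12288 ^ (n - k)

def DD (n : ℕ) : ℕ := 4 * ((2 * n + 1) * (2 * n + 3)) * Nat.centralBinom n

lemma DD_ne (n : ℕ) : DD n ≠ 0 := by
  unfold DD
  have := Nat.centralBinom_pos n
  positivity

lemma v2_DD (n : ℕ) : padicValNat 2 (DD n) = 2 + padicValNat 2 (Nat.centralBinom n) := by
  unfold DD
  rw [padicValNat.mul (by positivity) (cbn_ne _), padicValNat.mul (by norm_num) (by positivity)]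
  have h2 : padicValNat 2 ((2 * n + 1) * (2 * n + 3)) = 0 := by
    apply padicValNat.eq_zero_of_not_dvd
    rw [Nat.Prime.dvd_mul Nat.prime_two]
    omega
  have h3 : padicValNat 2 4 = 2 := by
    have : (4 : ℕ) = 2 ^ 2 := by norm_num
    rw [this, padicValNat.prime_pow]
  omega

lemma term_ne (n k : ℕ) : term n k ≠ 0 := by
  unfold term
  have := Nat.centralBinom_pos k
  have := Nat.centralBinom_pos (2 * k)
  positivity

lemma v2_term (n k : ℕ) : padicValNat 2 (term n k) =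
    padicValNat 2 (28 * k + 3) + (padicValNat 2 (Nat.centralBinom (2 * k)) +
      2 * padicValNat 2 (Nat.centralBinom k)) + 12 * (n - k) := by
  unfold term
  have h0 : 28 * k + 3 ≠ 0 := by omega
  have h1 := cbn_ne k
  have h2 := cbn_ne (2 * k)
  rw [padicValNat.mul (by positivity) (by positivity), padicValNat.mul h0 (by positivity),
    padicValNat.mul h2 (by positivity), padicValNat.pow, padicValNat.pow]
  have h3 : padicValNat 2 12288 = 12 := by
    have : (12288 : ℕ) = 2 ^ 12 * 3 := by norm_num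
    rw [this, padicValNat.mul (by norm_num) (by norm_num), padicValNat.prime_pow]
    have : padicValNat 2 3 = 0 := padicValNat.eq_zero_of_not_dvd (by norm_num)
    omega
  rw [h3]
  ring

lemma two_part (n k : ℕ) (hn : 1 ≤ n) (hk : k ≤ n) :
    padicValNat 2 (DD n) ≤ padicValNat 2 (term n k) := by
  rw [v2_DD, v2_term]
  rcases Nat.eq_or_lt_of_le hk with rfl | hlt
  · have h1 : 1 ≤ padicValNat 2 (Nat.centralBinom k) :=
      one_le_padicValNat_of_dvd (cbn_ne k) (Nat.two_dvd_centralBinom_of_one_le hn)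
    have h2 : 1 ≤ padicValNat 2 (Nat.centralBinom (2 * k)) :=
      one_le_padicValNat_of_dvd (cbn_ne _) (Nat.two_dvd_centralBinom_of_one_le (by omega))
    omega
  · obtain ⟨r, rfl⟩ := Nat.exists_eq_add_of_le hk
    have := v2_cb_le k r
    have h3 : k + r - k = r := by omega
    rw [h3]
    omega

/-- level estimates -/
lemma level_three (n k : ℕ) : (2 * n + 3) / 3 + 4 * (k / 3) ≤
    (4 * k) / 3 + n / 3 + (n + 1) / 3 + (if 3 ∣ k then 1 else 0) := by
  split_ifs with h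
  · omega
  · omega

lemma level_gen (q n k : ℕ) (hq : 4 ≤ q) : (2 * n + 3) / q + 4 * (k / q) ≤
    (4 * k) / q + n / q + (n + 1) / q + 1 := by
  have hq0 : 0 < q := by omega
  have h1 : 4 * (k / q) ≤ (4 * k) / q := by
    rw [Nat.le_div_iff_mul_le hq0]
    have := Nat.div_mul_le_self k q
    nlinarith
  have h2 : (2 * n + 3) / q ≤ n / q + (n + 1) / q + 1 := by
    have e1 := Nat.div_add_mod n q
    have e2 := Nat.div_add_mod (n + 1) q
    have l1 := Nat.mod_lt n hq0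
    have l2 := Nat.mod_lt (n + 1) hq0
    have : (2 * n + 3) / q < n / q + (n + 1) / q + 2 := by
      rw [Nat.div_lt_iff_lt_mul hq0]
      have e3 : (n / q + (n + 1) / q + 2) * q = q * (n / q) + q * ((n + 1) / q) + 2 * q := by ring
      rw [e3]
      by_cases hc : n % q + 1 < q
      · omega
      · have : n % q + 1 = q := by omega
        have h5 : (n + 1) % q = 0 := by
          rw [Nat.add_mod, Nat.mod_eq_of_lt (show 1 < q by omega), this, Nat.mod_self]
        omega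
    omega
  omega

lemma level_big (q k r : ℕ) (hq : 4 * r + 6 ≤ q) :
    (2 * (k + r) + 3) / q + 4 * (k / q) ≤
    (4 * k) / q + (k + r) / q + (k + r + 1) / q := by
  have hq0 : 0 < q := by omega
  set n := k + r with hn
  have h1 : 4 * (k / q) ≤ (4 * k) / q := by
    rw [Nat.le_div_iff_mul_le hq0]
    have := Nat.div_mul_le_self k q
    nlinarith
  have e1 := Nat.div_add_mod n q
  have l1 := Nat.mod_lt n hq0
  have h3 : n / q ≤ (n + 1) / q := Nat.div_le_div_right (by omega)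
  by_cases hc : 2 * (n % q) + 3 < q
  · have : (2 * n + 3) / q < 2 * (n / q) + 1 := by
      rw [Nat.div_lt_iff_lt_mul hq0]
      have e3 : (2 * (n / q) + 1) * q = 2 * (q * (n / q)) + q := by ring
      rw [e3]
      omega
    omega
  · have h4 : (2 * n + 3) / q ≤ n / q + (n + 1) / q + 1 := by
      have := level_gen q n k (by omega)
      have h2 : (2 * n + 3) / q ≤ n / q + (n + 1) / q + 1 := by
        have := level_gen q n 0 (by omega)
        simpa using this
      exact h2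
    have h5 : 4 * (k / q) + 1 ≤ (4 * k) / q := by
      rw [Nat.le_div_iff_mul_le hq0]
      have e2 := Nat.div_add_mod k q
      have l2 := Nat.mod_lt k hq0
      have hmod : n % q = (k % q + r) % q := by
        rw [hn, Nat.add_mod, Nat.mod_eq_of_lt (show r < q by omega)]
      have h6 : q ≤ 4 * (k % q) := by
        by_cases hd : k % q + r < q
        · rw [Nat.mod_eq_of_lt hd] at hmod
          omega
        · omega
      have e3 : (4 * (k / q) + 1) * q = 4 * (q * (k / q)) + q := by ring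
      rw [e3]
      omega
    omega

lemma pow_gt (r : ℕ) : 4 * r + 6 ≤ 3 ^ (r + 2) := by
  induction r with
  | zero => norm_num
  | succ r ih =>
    rw [show r + 1 + 2 = (r + 2) + 1 from rfl, pow_succ]
    omega

lemma level_all (i k r : ℕ) (hi : 1 ≤ i) :
    (2 * (k + r) + 3) / 3 ^ i + 4 * (k / 3 ^ i) ≤
    (4 * k) / 3 ^ i + (k + r) / 3 ^ i + (k + r + 1) / 3 ^ i +
      ((if i = 1 ∧ 3 ∣ k then 1 else 0) + (if 2 ≤ i ∧ i < r + 2 then 1 else 0)) := by
  rcases Nat.eq_or_lt_of_le hi with rfl | hi2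
  · have := level_three (k + r) k
    simp only [pow_one, true_and]
    split_ifs at this ⊢ <;> omega
  · by_cases h : i < r + 2
    · have hq : 4 ≤ 3 ^ i := by
        calc 4 ≤ 3 ^ 2 := by norm_num
          _ ≤ 3 ^ i := Nat.pow_le_pow_right (by norm_num) hi2
      have := level_gen (3 ^ i) (k + r) k hq
      have h2 : (2 ≤ i ∧ i < r + 2) := ⟨hi2, h⟩
      rw [if_pos h2]
      omega
    · have hq : 4 * r + 6 ≤ 3 ^ i := (pow_gt r).trans (Nat.pow_le_pow_right (by norm_num) (by omega))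
      have := level_big (3 ^ i) k r hq
      omega

lemma three_sum (k r b : ℕ) :
    ∑ i ∈ Ico 1 b, ((2 * (k + r) + 3) / 3 ^ i) + 4 * ∑ i ∈ Ico 1 b, (k / 3 ^ i) ≤
    ∑ i ∈ Ico 1 b, ((4 * k) / 3 ^ i) + ∑ i ∈ Ico 1 b, ((k + r) / 3 ^ i) +
      ∑ i ∈ Ico 1 b, ((k + r + 1) / 3 ^ i) + ((if 3 ∣ k then 1 else 0) + r) := by
  have h1 : ∑ i ∈ Ico 1 b, ((2 * (k + r) + 3) / 3 ^ i + 4 * (k / 3 ^ i)) ≤
      ∑ i ∈ Ico 1 b, ((4 * k) / 3 ^ i + (k + r) / 3 ^ i + (k + r + 1) / 3 ^ i +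
      ((if i = 1 ∧ 3 ∣ k then 1 else 0) + (if 2 ≤ i ∧ i < r + 2 then 1 else 0))) := by
    apply sum_le_sum
    intro i hi
    exact level_all i k r (mem_Ico.mp hi).1
  simp only [sum_add_distrib, ← mul_sum] at h1
  have h2 : ∑ i ∈ Ico 1 b, (if i = 1 ∧ 3 ∣ k then 1 else 0) ≤ (if 3 ∣ k then 1 else 0) := by
    by_cases h : 3 ∣ k
    · simp only [h, and_true, if_true]
      rw [sum_ite_eq']
      split_ifs <;> omega
    · simp [h]
  have h3 : ∑ i ∈ Ico 1 b, (if 2 ≤ i ∧ i < r + 2 then 1 else 0) ≤ r := by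
    rw [← card_filter]
    calc #{i ∈ Ico 1 b | 2 ≤ i ∧ i < r + 2} ≤ #(Ico 2 (r + 2)) := by
          apply card_le_card
          intro i hi
          rw [mem_filter] at hi
          exact mem_Ico.mpr hi.2
      _ = r := by simp
  omega

lemma fact_id1 (n : ℕ) : 2 * ((2 * n + 1) * (2 * n + 3)) * Nat.centralBinom n *
    (n.factorial * (n + 1).factorial) = (2 * n + 3).factorial := by
  have h := Nat.choose_mul_factorial_mul_factorial (show n ≤ 2 * n by omega)
  rw [show 2 * n - n = n by omega, ← Nat.centralBinom_eq_two_mul_choose] at h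
  rw [show 2 * n + 3 = (2 * n + 1 + 1) + 1 from rfl, Nat.factorial_succ (2 * n + 1 + 1), Nat.factorial_succ (2 * n + 1),
    Nat.factorial_succ (2 * n), ← h, Nat.factorial_succ n]
  ring

lemma fact_id2 (k : ℕ) : Nat.centralBinom (2 * k) * Nat.centralBinom k ^ 2 * k.factorial ^ 4 =
    (4 * k).factorial := by
  have h := Nat.choose_mul_factorial_mul_factorial (show k ≤ 2 * k by omega)
  rw [show 2 * k - k = k by omega, ← Nat.centralBinom_eq_two_mul_choose] at h
  have h2 := Nat.choose_mul_factorial_mul_factorial (show 2 * k ≤ 2 * (2 * k) by omega)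
  rw [show 2 * (2 * k) - 2 * k = 2 * k by omega, ← Nat.centralBinom_eq_two_mul_choose] at h2
  rw [show 4 * k = 2 * (2 * k) by ring, ← h2, ← h]
  ring

instance : Fact (Nat.Prime 3) := ⟨Nat.prime_three⟩

lemma three_part (k r : ℕ) :
    padicValNat 3 (DD (k + r)) ≤ padicValNat 3 (term (k + r) k) := by
  set n := k + r with hn
  set b := 2 * n + 4 * k + 10 with hb
  have hlog : ∀ m, m ≤ 2 * n + 4 * k + 5 → Nat.log 3 m < b := by
    intro m hm
    rcases Nat.eq_zero_or_pos m with rfl | hpos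
    · simp [hb]
    · exact lt_of_le_of_lt (Nat.log_le_self 3 m) (by omega)
  have L1 := padicValNat_factorial (p := 3) (hlog (2 * n + 3) (by omega))
  have L2 := padicValNat_factorial (p := 3) (hlog n (by omega))
  have L3 := padicValNat_factorial (p := 3) (hlog (n + 1) (by omega))
  have L4 := padicValNat_factorial (p := 3) (hlog (4 * k) (by omega))
  have L5 := padicValNat_factorial (p := 3) (hlog k (by omega))
  have hmain := three_sum k r b
  rw [← hn, ← L1, ← L2, ← L3, ← L4, ← L5] at hmain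
  -- valuations of both sides
  have hD : padicValNat 3 (DD n) + (padicValNat 3 n.factorial + padicValNat 3 (n + 1).factorial) =
      padicValNat 3 (2 * n + 3).factorial := by
    have h1 : 2 * (2 * n + 3).factorial = DD n * (n.factorial * (n + 1).factorial) := by
      rw [← fact_id1 n]; unfold DD; ring
    have h2 : padicValNat 3 (2 * (2 * n + 3).factorial) = padicValNat 3 (2 * n + 3).factorial := by
      rw [padicValNat.mul (by norm_num) (Nat.factorial_ne_zero _)]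
      have : padicValNat 3 2 = 0 := padicValNat.eq_zero_of_not_dvd (by norm_num)
      omega
    rw [← h2, h1, padicValNat.mul (DD_ne n) (Nat.mul_ne_zero (Nat.factorial_ne_zero _) (Nat.factorial_ne_zero _)),
      padicValNat.mul (Nat.factorial_ne_zero _) (Nat.factorial_ne_zero _)]
  have hT : padicValNat 3 (term n k) + 4 * padicValNat 3 k.factorial =
      padicValNat 3 (28 * k + 3) + padicValNat 3 (4 * k).factorial + r := by
    have h1 : term n k * k.factorial ^ 4 = (28 * k + 3) * (4 * k).factorial * 12288 ^ r := by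
      rw [← fact_id2 k]; unfold term
      rw [show n - k = r by omega]
      ring
    have h2 : padicValNat 3 (term n k * k.factorial ^ 4) =
        padicValNat 3 ((28 * k + 3) * (4 * k).factorial * 12288 ^ r) := by rw [h1]
    have hf := Nat.factorial_ne_zero k
    have hf4 := Nat.factorial_ne_zero (4 * k)
    have h0 : 28 * k + 3 ≠ 0 := by omega
    rw [padicValNat.mul (term_ne n k) (pow_ne_zero _ hf), padicValNat.pow,
      padicValNat.mul (Nat.mul_ne_zero h0 hf4) (pow_ne_zero _ (by norm_num)),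
      padicValNat.mul h0 hf4, padicValNat.pow] at h2
    have h3 : padicValNat 3 12288 = 1 := by
      have : (12288 : ℕ) = 3 * 4096 := by norm_num
      rw [this, padicValNat.mul (by norm_num) (by norm_num)]
      have e1 : padicValNat 3 4096 = 0 := padicValNat.eq_zero_of_not_dvd (by norm_num)
      have e2 : padicValNat 3 3 = 1 := by simp
      omega
    rw [h3] at h2
    omega
  have hk : (if 3 ∣ k then 1 else 0) ≤ padicValNat 3 (28 * k + 3) := by
    split_ifs with h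
    · apply one_le_padicValNat_of_dvd (by omega)
      omega
    · omega
  omega


lemma prime_pow_glue (D : ℕ) (T : ℤ) (A B : ℕ) (hD : D ≠ 0)
    (h : (D : ℤ) ∣ 2 ^ A * 3 ^ B * T)
    (h2 : (2 : ℤ) ^ (padicValNat 2 D) ∣ T) (h3 : (3 : ℤ) ^ (padicValNat 3 D) ∣ T) :
    (D : ℤ) ∣ T := by
  rw [← Int.dvd_natAbs, Int.natCast_dvd_natCast, Nat.dvd_iff_prime_pow_dvd_dvd]
  intro p k hp hk
  by_cases hp2 : p = 2
  · subst hp2
    have h4 : k ≤ padicValNat 2 D := (padicValNat_dvd_iff_le hD).mp hk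
    have h5 : 2 ^ (padicValNat 2 D) ∣ T.natAbs := by
      rw [← Int.natCast_dvd_natCast, Int.dvd_natAbs]
      exact_mod_cast h2
    exact (pow_dvd_pow 2 h4).trans h5
  by_cases hp3 : p = 3
  · subst hp3
    have h4 : k ≤ padicValNat 3 D := (padicValNat_dvd_iff_le hD).mp hk
    have h5 : 3 ^ (padicValNat 3 D) ∣ T.natAbs := by
      rw [← Int.natCast_dvd_natCast, Int.dvd_natAbs]
      exact_mod_cast h3
    exact (pow_dvd_pow 3 h4).trans h5
  have h6 : p ^ k ∣ 2 ^ A * 3 ^ B * T.natAbs := by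
    have h7 : D ∣ (2 ^ A * 3 ^ B * T).natAbs := Int.natCast_dvd.mp h
    have h8 : (2 ^ A * 3 ^ B * T : ℤ).natAbs = 2 ^ A * 3 ^ B * T.natAbs := by
      rw [Int.natAbs_mul, Int.natAbs_mul, Int.natAbs_pow, Int.natAbs_pow]
      rfl
    rw [h8] at h7
    exact hk.trans h7
  have hc : Nat.Coprime (p ^ k) (2 ^ A * 3 ^ B) := by
    apply Nat.Coprime.pow_left
    apply Nat.Coprime.mul_right
    · exact Nat.Coprime.pow_right _ ((Nat.coprime_primes hp Nat.prime_two).mpr hp2)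
    · exact Nat.Coprime.pow_right _ ((Nat.coprime_primes hp Nat.prime_three).mpr hp3)
  exact hc.dvd_of_dvd_mul_left h6

/-- the integral partial sum `T_{n+1}` -/
def TT (n : ℕ) : ℤ := ∑ k ∈ range (n + 1), (-1) ^ (n - k) * (term n k : ℤ)

lemma TT_two (n : ℕ) (hn : 1 ≤ n) : (2 : ℤ) ^ (padicValNat 2 (DD n)) ∣ TT n := by
  apply dvd_sum
  intro k hk
  have hk' : k ≤ n := by have := mem_range.mp hk; omega
  apply Dvd.dvd.mul_left
  have : 2 ^ (padicValNat 2 (DD n)) ∣ term n k :=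
    (padicValNat_dvd_iff_le (term_ne n k)).mpr (two_part n k hn hk')
  exact_mod_cast this

lemma TT_three (n : ℕ) : (3 : ℤ) ^ (padicValNat 3 (DD n)) ∣ TT n := by
  apply dvd_sum
  intro k hk
  have hk' : k ≤ n := by have := mem_range.mp hk; omega
  apply Dvd.dvd.mul_left
  obtain ⟨r, rfl⟩ := Nat.exists_eq_add_of_le hk'
  have : 3 ^ (padicValNat 3 (DD (k + r))) ∣ term (k + r) k :=
    (padicValNat_dvd_iff_le (term_ne _ k)).mpr (three_part k r)
  exact_mod_cast this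

lemma TT_rat (n : ℕ) : (TT n : ℚ) =
    (-12288) ^ n * ∑ k ∈ range (n + 1), (28 * (k : ℚ) + 3) * multinom k / (-12288) ^ k := by
  unfold TT term
  push_cast
  rw [mul_sum]
  apply sum_congr rfl
  intro k hk
  have hk' : k ≤ n := by have := mem_range.mp hk; omega
  obtain ⟨r, rfl⟩ := Nat.exists_eq_add_of_le hk'
  rw [multinom_eq, show k + r - k = r by omega, pow_add]
  have h1 : (-12288 : ℚ) ^ k ≠ 0 := pow_ne_zero _ (by norm_num)
  have h2 : (-12288 : ℚ) ^ r = (-1) ^ r * 12288 ^ r := by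
    rw [← mul_pow]; norm_num
  rw [h2]
  unfold cb
  field_simp

lemma rise_eq_R (M x : ℕ) :
    rise (((M + 1 : ℕ) : ℚ) - x + 1 / 2) (2 * (M + 1) - 1) = (R M x : ℚ) / 2 ^ (2 * M + 1) := by
  have h : 2 * (M + 1) - 1 = 2 * M + 1 := by omega
  rw [h]
  unfold rise R
  push_cast
  have : ∀ i ∈ range (2 * M + 1), ((M : ℚ) + 1 - x + 1 / 2 + i) =
      (2 * (M : ℚ) + 3 - 2 * x + 2 * i) * (1 / 2) := by
    intro i _; ring
  rw [prod_congr rfl this, prod_mul_distrib]
  simp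
  field_simp

/-- the integral closed form sum -/
def Z (M : ℕ) : ℤ := ∑ x ∈ range (2 * (M + 1)),
  3 ^ x * 16 ^ (2 * M + 2 - x) * (Nat.centralBinom x : ℤ) * R M x

lemma C_eq (M x : ℕ) (hx : x < 2 * (M + 1)) :
    C (M + 1) x * (27 ^ (M + 1) * (M.factorial : ℚ) ^ 2 * 2 ^ (2 * M + 1) * 16 ^ (2 * M + 2)) =
      18 * (3 ^ x * 16 ^ (2 * M + 2 - x) * (Nat.centralBinom x : ℚ) * (R M x : ℚ)) := by
  unfold C pre
  rw [rise_eq_R, Nat.factorial_succ]
  obtain ⟨y, hy⟩ := Nat.exists_eq_add_of_le (show x ≤ 2 * M + 2 by omega)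
  rw [hy, show x + y - x = y by omega, div_pow, pow_add (16 : ℚ)]
  have h1 : (M.factorial : ℚ) ≠ 0 := by exact_mod_cast Nat.factorial_ne_zero M
  have h2 : (M : ℚ) + 1 ≠ 0 := by positivity
  unfold cb
  push_cast
  field_simp

lemma TT_Z (M : ℕ) :
    TT M * (27 ^ (M + 1) * (M.factorial : ℤ) ^ 2 * 2 ^ (2 * M + 1) * 16 ^ (2 * M + 2)) =
      48 * (-12288) ^ M * Z M := by
  have h : ((TT M * (27 ^ (M + 1) * (M.factorial : ℤ) ^ 2 * 2 ^ (2 * M + 1) * 16 ^ (2 * M + 2)) : ℤ) : ℚ) =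
      ((48 * (-12288) ^ M * Z M : ℤ) : ℚ) := by
    push_cast
    rw [TT_rat]
    have h1 := closed_form M
    have h2 : ∑ n ∈ range (M + 1), (28 * (n : ℚ) + 3) * multinom n / (-12288) ^ n =
        8 / 3 * ∑ x ∈ range (2 * (M + 1)), C (M + 1) x := by rw [h1]; ring
    rw [h2]
    have h3 : (∑ x ∈ range (2 * (M + 1)), C (M + 1) x) *
        (27 ^ (M + 1) * (M.factorial : ℚ) ^ 2 * 2 ^ (2 * M + 1) * 16 ^ (2 * M + 2)) =
        18 * ((Z M : ℤ) : ℚ) := by
      unfold Z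
      push_cast
      rw [sum_mul, mul_sum]
      apply sum_congr rfl
      intro x hx
      rw [C_eq M x (mem_range.mp hx)]
    linear_combination (8 / 3 * (-12288 : ℚ) ^ M) * h3
  exact_mod_cast h

lemma DD_fact (M : ℕ) : (DD M : ℤ) * (M.factorial : ℤ) ^ 2 =
    4 * ((2 * (M : ℤ) + 3) * ((2 * M + 1).factorial : ℤ)) := by
  have h := Nat.choose_mul_factorial_mul_factorial (show M ≤ 2 * M by omega)
  rw [show 2 * M - M = M by omega, ← Nat.centralBinom_eq_two_mul_choose] at h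
  have h' : DD M * M.factorial ^ 2 = 4 * ((2 * M + 3) * (2 * M + 1).factorial) := by
    rw [Nat.factorial_succ (2 * M), ← h]
    unfold DD
    ring
  exact_mod_cast h'

lemma TT_five (M : ℕ) : ∃ A B : ℕ, (DD M : ℤ) ∣ 2 ^ A * 3 ^ B * TT M := by
  obtain ⟨e, M', hM', he⟩ := Nat.exists_eq_two_pow_mul_odd (Nat.factorial_ne_zero (2 * M + 1))
  have h1 : ((2 * (M : ℤ) + 3) * ((2 * M + 1).factorial : ℤ)) ∣ 2 ^ e * (6 * Z M) := by
    unfold Z
    rw [mul_sum, mul_sum]
    apply dvd_sum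
    intro x _
    have := key_dvd M x e M' hM' he
    have h2 : (2 : ℤ) ^ e * (6 * (3 ^ x * 16 ^ (2 * M + 2 - x) * (Nat.centralBinom x : ℤ) * R M x)) =
        (2 ^ e * (6 * (Nat.centralBinom x : ℤ) * R M x)) * (3 ^ x * 16 ^ (2 * M + 2 - x)) := by ring
    rw [h2]
    exact Dvd.dvd.mul_right this _
  refine ⟨e + (2 * M + 1) + 4 * (2 * M + 2), 3 * (M + 1), ?_⟩
  obtain ⟨w, hw⟩ := h1
  have h3 : (DD M : ℤ) * (M.factorial : ℤ) ^ 2 ∣
      (2 ^ (e + (2 * M + 1) + 4 * (2 * M + 2)) * 3 ^ (3 * (M + 1)) * TT M) * (M.factorial : ℤ) ^ 2 := by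
    rw [DD_fact]
    have h4 : (2 ^ (e + (2 * M + 1) + 4 * (2 * M + 2)) * 3 ^ (3 * (M + 1)) * TT M) * (M.factorial : ℤ) ^ 2 =
        2 ^ e * (TT M * (27 ^ (M + 1) * (M.factorial : ℤ) ^ 2 * 2 ^ (2 * M + 1) * 16 ^ (2 * M + 2))) := by
      have e1 : (27 : ℤ) ^ (M + 1) = 3 ^ (3 * (M + 1)) := by rw [pow_mul]; norm_num
      have e2 : (16 : ℤ) ^ (2 * M + 2) = 2 ^ (4 * (2 * M + 2)) := by rw [pow_mul]; norm_num
      rw [e1, e2, pow_add, pow_add]
      ring
    rw [h4, TT_Z]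
    refine ⟨2 * (-12288) ^ M * w, ?_⟩
    linear_combination (8 * (-12288 : ℤ) ^ M) * hw
  have h5 : (M.factorial : ℤ) ^ 2 ≠ 0 := by
    have : (M.factorial : ℤ) ≠ 0 := by exact_mod_cast Nat.factorial_ne_zero M
    exact pow_ne_zero _ this
  exact (mul_dvd_mul_iff_right h5).mp h3

lemma DD_dvd_TT (n : ℕ) (hn : 1 ≤ n) : (DD n : ℤ) ∣ TT n := by
  obtain ⟨A, B, h⟩ := TT_five n
  exact prime_pow_glue (DD n) (TT n) A B (DD_ne n) h (TT_two n hn) (TT_three n)

/-! positivity -/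

lemma multinom_pos (k : ℕ) : 0 < multinom k := by
  unfold multinom
  have := Nat.factorial_pos k
  have := Nat.factorial_pos (4 * k)
  positivity

lemma v_step (k : ℕ) : (28 * ((k + 1 : ℕ) : ℚ) + 3) * multinom (k + 1) / 12288 ^ (k + 1) ≤
    ((28 * (k : ℚ) + 3) * multinom k / 12288 ^ k) / 4 := by
  have h1 : multinom (k + 1) = multinom k * (8 * (4 * k + 3) * (4 * k + 1) * (2 * k + 1) / (k + 1) ^ 3) := by
    rw [multinom_eq, multinom_eq, show 2 * (k + 1) = 2 * k + 1 + 1 by ring, cb_succ' (2 * k + 1), cb_succ' (2 * k),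
      cb_succ' k]
    have h1 : (k : ℚ) + 1 ≠ 0 := by positivity
    have h2 : 2 * (k : ℚ) + 1 ≠ 0 := by positivity
    have h3 : 2 * (k : ℚ) + 1 + 1 ≠ 0 := by positivity
    push_cast
    field_simp
    ring
  rw [h1, pow_succ]
  have hM := multinom_pos k
  have hp : (0 : ℚ) < 12288 ^ k := by positivity
  have hk : (0 : ℚ) ≤ k := by positivity
  rw [div_div, div_le_div_iff₀ (by positivity) (by positivity)]
  have h2 : (28 * ((k + 1 : ℕ) : ℚ) + 3) * (8 * (4 * k + 3) * (4 * k + 1) * (2 * k + 1) / (k + 1) ^ 3) * 4 ≤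
      (28 * (k : ℚ) + 3) * 12288 := by
    have h3 : (0 : ℚ) < (k + 1) ^ 3 := by positivity
    push_cast
    rw [mul_div_assoc', div_mul_eq_mul_div, div_le_iff₀ h3]
    nlinarith [mul_nonneg hk hk, mul_nonneg (mul_nonneg hk hk) hk, mul_nonneg (mul_nonneg hk hk) (mul_nonneg hk hk)]
  have h4 : 0 ≤ multinom k * 12288 ^ k := by positivity
  have h5 := mul_le_mul_of_nonneg_left h2 h4
  calc _ = multinom k * 12288 ^ k * ((28 * ((k + 1 : ℕ) : ℚ) + 3) * (8 * (4 * k + 3) * (4 * k + 1) * (2 * k + 1) / (k + 1) ^ 3) * 4) := by ring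
    _ ≤ _ := h5
    _ = _ := by ring

lemma v_bound (k : ℕ) : (28 * (k : ℚ) + 3) * multinom k / 12288 ^ k ≤ 3 / 4 ^ k := by
  induction k with
  | zero => simp [multinom]
  | succ k ih =>
    calc _ ≤ ((28 * (k : ℚ) + 3) * multinom k / 12288 ^ k) / 4 := v_step k
      _ ≤ (3 / 4 ^ k) / 4 := by
        apply div_le_div_of_nonneg_right ih (by norm_num)
      _ = _ := by rw [pow_succ]; field_simp

lemma S_lower (n : ℕ) : 2 + 1 / 4 ^ n ≤
    ∑ k ∈ range (n + 1), (28 * (k : ℚ) + 3) * multinom k / (-12288) ^ k := by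
  induction n with
  | zero => simp [multinom]; norm_num
  | succ n ih =>
    rw [sum_range_succ]
    have h1 := v_bound (n + 1)
    have h2 : -((28 * ((n + 1 : ℕ) : ℚ) + 3) * multinom (n + 1) / 12288 ^ (n + 1)) ≤
        (28 * ((n + 1 : ℕ) : ℚ) + 3) * multinom (n + 1) / (-12288) ^ (n + 1) := by
      have hM := multinom_pos (n + 1)
      have h3 : (-12288 : ℚ) ^ (n + 1) = (-1) ^ (n + 1) * 12288 ^ (n + 1) := by
        rw [← mul_pow]; norm_num
      rw [h3]
      have h4 : 0 ≤ (28 * ((n + 1 : ℕ) : ℚ) + 3) * multinom (n + 1) / 12288 ^ (n + 1) := by positivity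
      rcases neg_one_pow_eq_or ℚ (n + 1) with h | h
      · rw [h, one_mul]; linarith
      · rw [h, neg_one_mul, div_neg]
    have h5 : (3 : ℚ) / 4 ^ (n + 1) + 1 / 4 ^ (n + 1) = 1 / 4 ^ n := by
      rw [pow_succ]; field_simp; norm_num
    linarith

lemma TT_pos (n : ℕ) : 0 < (-1 : ℤ) ^ n * TT n := by
  have h : (0 : ℚ) < (((-1 : ℤ) ^ n * TT n : ℤ) : ℚ) := by
    push_cast
    rw [TT_rat]
    have h1 := S_lower n
    have h2 : (0 : ℚ) < 1 / 4 ^ n := by positivity
    have h3 : (-1 : ℚ) ^ n * ((-12288) ^ n * ∑ k ∈ range (n + 1), (28 * (k : ℚ) + 3) * multinom k / (-12288) ^ k) =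
        12288 ^ n * ∑ k ∈ range (n + 1), (28 * (k : ℚ) + 3) * multinom k / (-12288) ^ k := by
      rw [← mul_assoc, ← mul_pow]; norm_num
    rw [h3]
    apply mul_pos (by positivity)
    linarith
  exact_mod_cast h

lemma a_eq (n : ℕ) : a (n + 1) = (TT n : ℚ) / (DD n : ℚ) := by
  unfold a
  have hD : (2 * ((n + 1 : ℕ) : ℚ) * (2 * ((n + 1 : ℕ) : ℚ) + 1) * (Nat.choose (2 * (n + 1)) (n + 1))) = DD n := by
    rw [← Nat.centralBinom_eq_two_mul_choose]
    have h := Nat.succ_mul_centralBinom_succ n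
    have h' : 2 * (n + 1) * (2 * (n + 1) + 1) * Nat.centralBinom (n + 1) = DD n := by
      unfold DD
      calc 2 * (n + 1) * (2 * (n + 1) + 1) * Nat.centralBinom (n + 1)
          = 2 * (2 * (n + 1) + 1) * ((n + 1) * Nat.centralBinom (n + 1)) := by ring
        _ = _ := by rw [h]; ring
    exact_mod_cast h'
  rw [hD]
  have hT : ∑ k ∈ range (n + 1), (28 * (k : ℚ) + 3) * multinom k * (-3 * 2 ^ 12) ^ (n + 1 - 1 - k) = (TT n : ℚ) := by
    rw [TT_rat, mul_sum]
    apply sum_congr rfl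
    intro k hk
    have hk' : k ≤ n := by have := mem_range.mp hk; omega
    obtain ⟨r, rfl⟩ := Nat.exists_eq_add_of_le hk'
    rw [show k + r + 1 - 1 - k = r by omega, pow_add]
    have h1 : (-12288 : ℚ) ^ k ≠ 0 := pow_ne_zero _ (by norm_num)
    have h2 : (-3 * 2 ^ 12 : ℚ) = -12288 := by norm_num
    rw [h2]
    field_simp
  rw [hT]
  ring

theorem main_thm : ∀ n : ℕ, 2 ≤ n → ∃ m : ℕ, 0 < m ∧ (-1 : ℚ) ^ (n - 1) * a n = m := by
  intro n hn
  obtain ⟨n, rfl⟩ := Nat.exists_eq_add_of_le' (show 1 ≤ n by omega)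
  obtain ⟨w, hw⟩ := DD_dvd_TT n (by omega)
  have hpos := TT_pos n
  have hD : (0 : ℤ) < DD n := by
    have := Nat.pos_of_ne_zero (DD_ne n)
    exact_mod_cast this
  have h1 : (0 : ℤ) < (-1) ^ n * w := by
    rw [hw] at hpos
    have h2 : (-1 : ℤ) ^ n * (DD n * w) = DD n * ((-1) ^ n * w) := by ring
    rw [h2] at hpos
    exact (mul_pos_iff_of_pos_left hD).mp hpos
  refine ⟨((-1 : ℤ) ^ n * w).toNat, ?_, ?_⟩
  · omega
  · rw [a_eq, hw, show n + 1 - 1 = n by omega]
    have h3 : ((((-1 : ℤ) ^ n * w).toNat : ℕ) : ℤ) = (-1) ^ n * w := Int.toNat_of_nonneg h1.le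
    have h4 : ((((-1 : ℤ) ^ n * w).toNat : ℕ) : ℚ) = (-1) ^ n * w := by exact_mod_cast h3
    rw [h4]
    have h5 : (DD n : ℚ) ≠ 0 := by exact_mod_cast hD.ne'
    push_cast
    field_simp


end Pool.Agent.Results.MP_14414a_nt.AlternatingIntegrality
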